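import Mathlib

/-!
# The graphs `D_d`
-/

set_option autoImplicit false

namespace Pool.Agent.C4k

/-- The vertices of `D_d`: those of two copies of `D_(d - 1)` and one for every pair of vertices of different copies. -/
def Vt : ℕ → Type
  | 0 => Unit
  | d + 1 => (Bool × Vt d) ⊕ (Vt d × Vt d)

/-- The graph `D_d`: `D_0` is one vertex, and `D_(d + 1)` consists of two disjoint copies of `D_d`, any two vertices of
different copies joined by a path of length two through a new vertex. -/
def Dg : (d : ℕ) → SimpleGraph (Vt d)
  | 0 => ⊥
  | d + 1 => SimpleGraph.fromRel fun a b => match a, b with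
    | .inl (i, x), .inl (j, y) => i = j ∧ (Dg d).Adj x y
    | .inl (false, x), .inr (x', _) => x = x'
    | .inl (true, y), .inr (_, y') => y = y'
    | _, _ => False

end Pool.Agent.C4k
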