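import Pool.Agent.C4k.Rec

/-!
# Weak copies with two prescribed vertices; induced copies of `D_d`
-/

set_option autoImplicit false

namespace Pool.Agent.C4k

open Finset Pool.Agent.C4j
open scoped Classical

noncomputable section

variable {V : Type} [Fintype V]

/-- one prescribed vertex -/
def w1 (G : SimpleGraph V) (d : ℕ) (x : Vt d) (u : V) : Finset (Vt d → V) :=
  (wk G d).filter fun φ => φ x = u

/-- one vertex in a neighbourhood -/
def wc (G : SimpleGraph V) (d : ℕ) (x : Vt d) (w : V) : Finset (Vt d → V) :=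
  (wk G d).filter fun φ => G.Adj w (φ x)

/-- two prescribed vertices -/
def w2 (G : SimpleGraph V) (d : ℕ) (x y : Vt d) (u v : V) : Finset (Vt d → V) :=
  (wk G d).filter fun φ => φ x = u ∧ φ y = v

/-- one prescribed vertex and one in a neighbourhood -/
def wa (G : SimpleGraph V) (d : ℕ) (x y : Vt d) (u w : V) : Finset (Vt d → V) :=
  (wk G d).filter fun φ => φ x = u ∧ G.Adj w (φ y)

/-- two vertices in neighbourhoods -/
def wb (G : SimpleGraph V) (d : ℕ) (x y : Vt d) (w w' : V) : Finset (Vt d → V) :=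
  (wk G d).filter fun φ => G.Adj w (φ x) ∧ G.Adj w' (φ y)

/-- bounds for the fibres -/
structure Bd (G : SimpleGraph V) (d W F P S q : ℕ) : Prop where
  hW : (wk G d).card ≤ W
  hF : ∀ x u, (w1 G d x u).card ≤ F
  hP : ∀ x y, x ≠ y → ∀ u v, (w2 G d x y u v).card ≤ P
  hS : ∀ x y, x ≠ y → ¬ (Dg d).Adj x y → ∀ u v, u ≠ v → (w2 G d x y u v).card ≤ S
  hq : ∀ v, (nb G univ v).card ≤ q

/-- `φ` is an embedding onto an induced copy -/
def Em (G : SimpleGraph V) (d : ℕ) (φ : Vt d → V) : Prop :=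
  Function.Injective φ ∧ ∀ a b, G.Adj (φ a) (φ b) → (Dg d).Adj a b

/-- the weak copies which are not induced copies -/
def be (G : SimpleGraph V) (d : ℕ) : Finset (Vt d → V) := (wk G d).filter fun φ => ¬ Em G d φ

theorem prd {G : SimpleGraph V} (hG : C4F G) {d : ℕ} {P : Finset (Vt (d + 1) → V)}
    {A B : Finset (Vt d → V)} (hP : ∀ φ ∈ P, Wk G (d + 1) φ ∧ lf φ ∈ A ∧ rt φ ∈ B) :
    P.card ≤ A.card * B.card := by
  rw [← Finset.card_product]
  refine Finset.card_le_card_of_injOn (fun φ => (lf φ, rt φ)) ?_ ?_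
  · intro φ hφ
    exact Finset.mem_coe.2 (Finset.mem_product.2 (hP φ hφ).2)
  · intro φ hφ ψ hψ h
    have h1 := Prod.mk.inj h
    exact uni hG (hP φ hφ).1 (hP ψ hψ).1 h1.1 h1.2

-- BEGIN wcq
private theorem wcq_un {α β : Type} {T : Finset β} {s : Finset α} {f : α → Finset β} {n q : ℕ}
    (hT : ∀ φ ∈ T, ∃ a ∈ s, φ ∈ f a) (hf : ∀ a ∈ s, (f a).card ≤ n) (hs : s.card ≤ q) :
    T.card ≤ q * n := by
  have h1 : T ⊆ s.biUnion f := fun φ hφ => Finset.mem_biUnion.2 (hT φ hφ)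
  exact ((Finset.card_le_card h1).trans (Finset.card_biUnion_le_card_mul s f n hf)).trans
    (Nat.mul_le_mul_right n hs)

/-- ROW wcq. `wc` is contained in the union of the `w1 G d x u`, `u ∈ nb G univ w` (`Finset.card_biUnion_le_card_mul`);
likewise `wa` in the union of the `w2 G d x y u v`, `v ∈ nb G univ w`. The last two: `wb G d x x w w'` with `w ≠ w'`: at
most one value of `φ x` (`C4F`). -/
theorem wcq {G : SimpleGraph V} {d W F P S q : ℕ} (h : Bd G d W F P S q) (x : Vt d) (w : V) :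
    (wc G d x w).card ≤ q * F := by
  refine wcq_un (s := nb G univ w) (f := fun u => w1 G d x u) (fun φ hφ => ?_)
    (fun u _ => h.hF x u) (h.hq w)
  obtain ⟨h1, h2⟩ := Finset.mem_filter.1 hφ
  exact ⟨φ x, mem_nb.2 ⟨Finset.mem_univ _, h2⟩, Finset.mem_filter.2 ⟨h1, rfl⟩⟩

theorem waw {G : SimpleGraph V} {d W F P S q : ℕ} (h : Bd G d W F P S q) {x y : Vt d} (hxy : x ≠ y)
    (u w : V) : (wa G d x y u w).card ≤ q * P := by
  refine wcq_un (s := nb G univ w) (f := fun v => w2 G d x y u v) (fun φ hφ => ?_)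
    (fun v _ => h.hP x y hxy u v) (h.hq w)
  obtain ⟨h1, h2, h3⟩ := Finset.mem_filter.1 hφ
  exact ⟨φ y, mem_nb.2 ⟨Finset.mem_univ _, h3⟩, Finset.mem_filter.2 ⟨h1, h2, rfl⟩⟩

theorem was {G : SimpleGraph V} {d W F P S q : ℕ} (h : Bd G d W F P S q) (x : Vt d)
    (u w : V) : (wa G d x x u w).card ≤ F := by
  refine (Finset.card_le_card fun φ hφ => ?_).trans (h.hF x u)
  obtain ⟨h1, h2, -⟩ := Finset.mem_filter.1 hφ
  exact Finset.mem_filter.2 ⟨h1, h2⟩

theorem wbs {G : SimpleGraph V} (hG : C4F G) {d W F P S q : ℕ} (h : Bd G d W F P S q) (x : Vt d)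
    {w w' : V} (hw : w ≠ w') : (wb G d x x w w').card ≤ F := by
  rcases (wb G d x x w w').eq_empty_or_nonempty with h0 | ⟨ψ, hψ⟩
  · rw [h0, Finset.card_empty]
    exact Nat.zero_le _
  obtain ⟨-, k2, k3⟩ := Finset.mem_filter.1 hψ
  refine (Finset.card_le_card fun φ hφ => ?_).trans (h.hF x (ψ x))
  obtain ⟨h1, h2, h3⟩ := Finset.mem_filter.1 hφ
  refine Finset.mem_filter.2 ⟨h1, ?_⟩
  by_contra hne
  exact hG _ _ _ _ hw hne h2 k2 h3 k3

theorem wbt {G : SimpleGraph V} {d W F P S q : ℕ} (h : Bd G d W F P S q) (x : Vt d)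
    (w w' : V) : (wb G d x x w w').card ≤ q * F := by
  refine (Finset.card_le_card fun φ hφ => ?_).trans (wcq h x w)
  obtain ⟨h1, h2, -⟩ := Finset.mem_filter.1 hφ
  exact Finset.mem_filter.2 ⟨h1, h2⟩
-- END wcq

-- BEGIN wan
/-- ROW wan. If `x`, `y` are not adjacent: `φ y = v` for some `v ∈ nb G univ w`; the `v ≠ u` give `q * S`, `v = u` gives `P`.
If they are adjacent then `φ y` is adjacent to `u` (`hom`, `mem_wk`) and to `w`, and `u ≠ w`: at most one value (`C4F`), `P`. -/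
theorem wan {G : SimpleGraph V} (hG : C4F G) {d W F P S q : ℕ} (h : Bd G d W F P S q) {x y : Vt d}
    (hxy : x ≠ y) {u w : V} (huw : ¬ (Dg d).Adj x y ∨ u ≠ w) : (wa G d x y u w).card ≤ q * S + P := by
  by_cases hadj : (Dg d).Adj x y
  · have huw' : u ≠ w := huw.resolve_left (not_not_intro hadj)
    rcases (wa G d x y u w).eq_empty_or_nonempty with h0 | ⟨ψ, hψ⟩
    · rw [h0, Finset.card_empty]
      exact Nat.zero_le _
    obtain ⟨k1, k2, k3⟩ := Finset.mem_filter.1 hψ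
    have k4 := hom d (mem_wk.1 k1) x y hadj
    rw [k2] at k4
    refine ((Finset.card_le_card fun φ hφ => ?_).trans (h.hP x y hxy u (ψ y))).trans
      (Nat.le_add_left P (q * S))
    obtain ⟨h1, h2, h3⟩ := Finset.mem_filter.1 hφ
    have h4 := hom d (mem_wk.1 h1) x y hadj
    rw [h2] at h4
    refine Finset.mem_filter.2 ⟨h1, h2, ?_⟩
    by_contra hne
    exact hG _ _ _ _ huw' hne h4 k4 h3 k3
  · have hsub : wa G d x y u w ⊆
        (((nb G univ w).erase u).biUnion fun v => w2 G d x y u v) ∪ w2 G d x y u u := by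
      intro φ hφ
      obtain ⟨h1, h2, h3⟩ := Finset.mem_filter.1 hφ
      rw [Finset.mem_union]
      by_cases hv : φ y = u
      · exact Or.inr (Finset.mem_filter.2 ⟨h1, h2, hv⟩)
      · exact Or.inl (Finset.mem_biUnion.2 ⟨φ y, Finset.mem_erase.2 ⟨hv,
          mem_nb.2 ⟨Finset.mem_univ _, h3⟩⟩, Finset.mem_filter.2 ⟨h1, h2, rfl⟩⟩)
    refine ((Finset.card_le_card hsub).trans (Finset.card_union_le _ _)).trans
      (Nat.add_le_add ?_ (h.hP x y hxy u u))
    refine (Finset.card_biUnion_le_card_mul _ _ S fun v hv => ?_).trans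
      (Nat.mul_le_mul_right S ((Finset.card_le_card (Finset.erase_subset _ _)).trans (h.hq w)))
    exact h.hS x y hxy hadj u v (Finset.ne_of_mem_erase hv).symm
-- END wan

-- BEGIN wbq
/-- ROW wbq. `wb G d x y w w'` is the union of the `wa G d x y u w'`, `u ∈ nb G univ w`. Not adjacent: `wan` for each `u`.
Adjacent: for `u ≠ w'` at most `P` (as in `wan`: at most one value of `φ y`), for `u = w'` at most `q * P` (`waw`). -/
theorem wbq {G : SimpleGraph V} (hG : C4F G) {d W F P S q : ℕ} (h : Bd G d W F P S q) {x y : Vt d}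
    (hxy : x ≠ y) (w w' : V) : (wb G d x y w w').card ≤ q * (q * S) + 2 * (q * P) := by
  have hsub : wb G d x y w w' ⊆ (nb G univ w).biUnion fun u => wa G d x y u w' := by
    intro φ hφ
    have h1 := Finset.mem_filter.1 hφ
    refine Finset.mem_biUnion.2 ⟨φ x, ?_, Finset.mem_filter.2 ⟨h1.1, rfl, h1.2.2⟩⟩
    exact Finset.mem_filter.2 ⟨Finset.mem_univ _, h1.2.1⟩
  have hone : ∀ u ∈ nb G univ w,
      (wa G d x y u w').card ≤ (q * S + P) + if u = w' then q * P else 0 := by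
    intro u _
    by_cases hu : u = w'
    · rw [if_pos hu]
      exact (waw h hxy u w').trans (Nat.le_add_left _ _)
    · rw [if_neg hu, add_zero]
      exact wan hG h hxy (Or.inr hu)
  have hq := h.hq w
  calc (wb G d x y w w').card
      ≤ ((nb G univ w).biUnion fun u => wa G d x y u w').card := Finset.card_le_card hsub
    _ ≤ ∑ u ∈ nb G univ w, (wa G d x y u w').card := Finset.card_biUnion_le
    _ ≤ ∑ u ∈ nb G univ w, ((q * S + P) + if u = w' then q * P else 0) :=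
        Finset.sum_le_sum hone
    _ ≤ (nb G univ w).card * (q * S + P) + q * P := by
        rw [Finset.sum_add_distrib, Finset.sum_const, smul_eq_mul, Finset.sum_ite_eq']
        refine Nat.add_le_add_left ?_ _
        split_ifs
        · exact le_rfl
        · exact Nat.zero_le _
    _ ≤ q * (q * S + P) + q * P := Nat.add_le_add_right (Nat.mul_le_mul_right _ hq) _
    _ = q * (q * S) + 2 * (q * P) := by ring
-- END wbq

-- BEGIN cll
/-- ROW cll. `prd` (`cases i`; `w2`, `mem_wk`; `Wk` for the midpoints: `md φ x y` is adjacent to `lf φ x` and `rt φ y`). -/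
theorem cll {G : SimpleGraph V} (hG : C4F G) {d : ℕ} (i : Bool) (x y : Vt d) (u v : V) :
    (w2 G (d + 1) (Sum.inl (i, x)) (Sum.inl (i, y)) u v).card ≤
      (w2 G d x y u v).card * (wk G d).card := by
  cases i with
  | false =>
    refine prd hG fun φ hφ => ?_
    obtain ⟨h1, h2, h3⟩ := Finset.mem_filter.1 hφ
    have h4 := mem_wk.1 h1
    exact ⟨h4, Finset.mem_filter.2 ⟨mem_wk.2 h4.1, h2, h3⟩, mem_wk.2 h4.2.1⟩
  | true =>
    rw [mul_comm]
    refine prd hG fun φ hφ => ?_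
    obtain ⟨h1, h2, h3⟩ := Finset.mem_filter.1 hφ
    have h4 := mem_wk.1 h1
    exact ⟨h4, mem_wk.2 h4.1, Finset.mem_filter.2 ⟨mem_wk.2 h4.2.1, h2, h3⟩⟩

theorem clr {G : SimpleGraph V} (hG : C4F G) {d : ℕ} (i : Bool) (x y : Vt d) (u v : V) :
    (w2 G (d + 1) (Sum.inl (i, x)) (Sum.inl (!i, y)) u v).card ≤
      (w1 G d x u).card * (w1 G d y v).card := by
  cases i with
  | false =>
    refine prd hG fun φ hφ => ?_
    obtain ⟨h1, h2, h3⟩ := Finset.mem_filter.1 hφ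
    have h4 := mem_wk.1 h1
    exact ⟨h4, Finset.mem_filter.2 ⟨mem_wk.2 h4.1, h2⟩, Finset.mem_filter.2 ⟨mem_wk.2 h4.2.1, h3⟩⟩
  | true =>
    rw [mul_comm]
    refine prd hG fun φ hφ => ?_
    obtain ⟨h1, h2, h3⟩ := Finset.mem_filter.1 hφ
    have h4 := mem_wk.1 h1
    exact ⟨h4, Finset.mem_filter.2 ⟨mem_wk.2 h4.1, h3⟩, Finset.mem_filter.2 ⟨mem_wk.2 h4.2.1, h2⟩⟩
-- END cll

-- BEGIN clm
private theorem clm_l {G : SimpleGraph V} {d : ℕ} {φ : Vt (d + 1) → V} (h : Wk G (d + 1) φ) :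
    Wk G d (lf φ) ∧ Wk G d (rt φ) ∧ ∀ x y, G.Adj (md φ x y) (lf φ x) ∧ G.Adj (md φ x y) (rt φ y) :=
  ⟨h.1, h.2.1, fun x y => ⟨(h.2.2 x y).2.1.symm, (h.2.2 x y).2.2⟩⟩

/-- ROW clm. `prd` (`w2`, `mem_wk`; `Wk` for the midpoints: `md φ x y` is adjacent to `lf φ x` and `rt φ y`). -/
theorem clm {G : SimpleGraph V} (hG : C4F G) {d : ℕ} (x x' y' : Vt d) (u w : V) :
    (w2 G (d + 1) (Sum.inl (false, x)) (Sum.inr (x', y')) u w).card ≤
      (wa G d x x' u w).card * (wc G d y' w).card := by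
  refine prd hG fun φ hφ => ?_
  obtain ⟨hk, h1, h2⟩ := Finset.mem_filter.1 hφ
  obtain ⟨hl, hr, hm⟩ := clm_l (mem_wk.1 hk)
  refine ⟨mem_wk.1 hk, Finset.mem_filter.2 ⟨mem_wk.2 hl, h1, ?_⟩,
    Finset.mem_filter.2 ⟨mem_wk.2 hr, ?_⟩⟩
  · rw [← h2]; exact (hm x' y').1
  · rw [← h2]; exact (hm x' y').2

theorem crm {G : SimpleGraph V} (hG : C4F G) {d : ℕ} (y x' y' : Vt d) (u w : V) :
    (w2 G (d + 1) (Sum.inl (true, y)) (Sum.inr (x', y')) u w).card ≤
      (wa G d y y' u w).card * (wc G d x' w).card := by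
  rw [mul_comm]
  refine prd hG fun φ hφ => ?_
  obtain ⟨hk, h1, h2⟩ := Finset.mem_filter.1 hφ
  obtain ⟨hl, hr, hm⟩ := clm_l (mem_wk.1 hk)
  refine ⟨mem_wk.1 hk, Finset.mem_filter.2 ⟨mem_wk.2 hl, ?_⟩,
    Finset.mem_filter.2 ⟨mem_wk.2 hr, h1, ?_⟩⟩
  · rw [← h2]; exact (hm x' y').1
  · rw [← h2]; exact (hm x' y').2

theorem cmm {G : SimpleGraph V} (hG : C4F G) {d : ℕ} (x y x' y' : Vt d) (w w' : V) :
    (w2 G (d + 1) (Sum.inr (x, y)) (Sum.inr (x', y')) w w').card ≤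
      (wb G d x x' w w').card * (wb G d y y' w w').card := by
  refine prd hG fun φ hφ => ?_
  obtain ⟨hk, h1, h2⟩ := Finset.mem_filter.1 hφ
  obtain ⟨hl, hr, hm⟩ := clm_l (mem_wk.1 hk)
  refine ⟨mem_wk.1 hk, Finset.mem_filter.2 ⟨mem_wk.2 hl, ?_, ?_⟩,
    Finset.mem_filter.2 ⟨mem_wk.2 hr, ?_, ?_⟩⟩
  · rw [← h1]; exact (hm x y).1
  · rw [← h2]; exact (hm x' y').1
  · rw [← h1]; exact (hm x y).2
  · rw [← h2]; exact (hm x' y').2

theorem w2s {G : SimpleGraph V} {d : ℕ} (x y : Vt d) (u v : V) : w2 G d x y u v = w2 G d y x v u := by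
  unfold w2
  congr 1
  ext φ
  exact and_comm
-- END clm

-- BEGIN tpp
private theorem tpp_one {G : SimpleGraph V} {d W F P S q : ℕ} (h : Bd G d W F P S q)
    (x x' : Vt d) (u w : V) (y' : Vt d) :
    (wa G d x x' u w).card * (wc G d y' w).card ≤ q * P * (q * F) + F * (q * F) := by
  by_cases hx : x = x'
  · subst hx
    have := Nat.mul_le_mul (was h x u w) (wcq h y' w)
    omega
  · have := Nat.mul_le_mul (waw h hx u w) (wcq h y' w)
    omega

private theorem tpp_mix {G : SimpleGraph V} (hG : C4F G) {d W F P S q : ℕ} (h : Bd G d W F P S q)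
    (i : Bool) (x x' y' : Vt d) (u w : V) :
    (w2 G (d + 1) (Sum.inl (i, x)) (Sum.inr (x', y')) u w).card ≤
      q * P * (q * F) + F * (q * F) := by
  cases i
  · exact (clm hG x x' y' u w).trans (tpp_one h x x' u w y')
  · exact (crm hG x x' y' u w).trans (tpp_one h x y' u w x')

/-- ROW tpp. Cases: both in the same half `cll`, `hP` (`x ≠ y`), `hW`; different halves `clr`; one midpoint (`w2s` if it is the
first one) `clm`, `crm`, with `x ≠ x'` `waw`, with `x = x'` `was`, `wcq`; two midpoints `cmm`, `wbq` for different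
coordinates, `wbt` for equal ones (not both are equal). -/
theorem tpp {G : SimpleGraph V} (hG : C4F G) {d W F P S q T : ℕ} (h : Bd G d W F P S q)
    (hT : q * (q * S) + 2 * (q * P) ≤ T) {a b : Vt (d + 1)} (hab : a ≠ b) (u v : V) :
    (w2 G (d + 1) a b u v).card ≤
      P * W + F * F + q * P * (q * F) + F * (q * F) + T * T + q * F * T := by
  rcases a with ⟨i, x⟩ | ⟨x, y⟩ <;> rcases b with ⟨j, x'⟩ | ⟨x', y'⟩
  · by_cases hij : j = i
    · subst hij
      have hx : x ≠ x' := fun hx => hab (by rw [hx])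
      have h1 := (cll hG j x x' u v).trans (Nat.mul_le_mul (h.hP x x' hx u v) h.hW)
      omega
    · have hj : j = !i := by cases i <;> cases j <;> simp_all
      subst hj
      have h1 := (clr hG i x x' u v).trans (Nat.mul_le_mul (h.hF x u) (h.hF x' v))
      omega
  · have h1 := tpp_mix hG h i x x' y' u v
    omega
  · have h1 := tpp_mix hG h j x' x y v u
    refine (congrArg Finset.card (w2s (G := G) (d := d + 1) (Sum.inr (x, y)) (Sum.inl (j, x')) u v)).trans_le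
      (h1.trans ?_)
    omega
  · have h1 := cmm hG x y x' y' u v
    by_cases hx : x = x'
    · subst hx
      have hy : y ≠ y' := fun hy => hab (by rw [hy])
      have h2 := Nat.mul_le_mul (wbt h x u v) ((wbq hG h hy u v).trans hT)
      omega
    · by_cases hy : y = y'
      · subst hy
        have h2 := Nat.mul_le_mul ((wbq hG h hx u v).trans hT) (wbt h y u v)
        rw [Nat.mul_comm T (q * F)] at h2
        omega
      · have h2 := Nat.mul_le_mul ((wbq hG h hx u v).trans hT) ((wbq hG h hy u v).trans hT)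
        omega
-- END tpp

-- BEGIN tps
private theorem tps_ll {d : ℕ} {i : Bool} {x y : Vt d} (h : (Dg d).Adj x y) :
    (Dg (d + 1)).Adj (Sum.inl (i, x)) (Sum.inl (i, y)) := by
  refine (SimpleGraph.fromRel_adj _ _ _).2
    ⟨fun e => h.ne (Prod.mk.inj (Sum.inl.inj e)).2, Or.inl ?_⟩
  cases i <;> exact ⟨rfl, h⟩

private theorem tps_lm {d : ℕ} (x y : Vt d) :
    (Dg (d + 1)).Adj (Sum.inl (false, x)) (Sum.inr (x, y)) := by
  exact (SimpleGraph.fromRel_adj _ _ _).2 ⟨fun e => (nomatch e), Or.inl rfl⟩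

private theorem tps_rm {d : ℕ} (x y : Vt d) :
    (Dg (d + 1)).Adj (Sum.inl (true, y)) (Sum.inr (x, y)) := by
  exact (SimpleGraph.fromRel_adj _ _ _).2 ⟨fun e => (nomatch e), Or.inl rfl⟩

private theorem tps_one {G : SimpleGraph V} (hG : C4F G) {d W F P S q : ℕ} (h : Bd G d W F P S q)
    (j : Bool) (x x' y' : Vt d) (hn : ¬ (Dg (d + 1)).Adj (Sum.inl (j, x)) (Sum.inr (x', y')))
    {u v : V} (huv : u ≠ v) :
    (w2 G (d + 1) (Sum.inl (j, x)) (Sum.inr (x', y')) u v).card ≤ (q * S + P) * (q * F) := by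
  cases j
  · have hx : x ≠ x' := by
      rintro rfl
      exact hn (tps_lm x y')
    exact (clm hG x x' y' u v).trans (Nat.mul_le_mul (wan hG h hx (Or.inr huv)) (wcq h y' v))
  · have hx : x ≠ y' := by
      rintro rfl
      exact hn (tps_rm x' x)
    exact (crm hG x x' y' u v).trans (Nat.mul_le_mul (wan hG h hx (Or.inr huv)) (wcq h x' v))

/-- ROW tps. As `tpp`: same half: not adjacent (`Dg`, `SimpleGraph.fromRel_adj`), `hS`; different halves `clr`; one midpoint: the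
pair is not adjacent, so `x ≠ x'`, `wan` (`u ≠ w`); two midpoints: `wbq`, and `wbs` for equal coordinates (`w ≠ w'`). -/
theorem tps {G : SimpleGraph V} (hG : C4F G) {d W F P S q T : ℕ} (h : Bd G d W F P S q)
    (hT : q * (q * S) + 2 * (q * P) ≤ T) {a b : Vt (d + 1)} (hab : a ≠ b)
    (hn : ¬ (Dg (d + 1)).Adj a b) {u v : V} (huv : u ≠ v) :
    (w2 G (d + 1) a b u v).card ≤
      S * W + F * F + (q * S + P) * (q * F) + T * T + F * T := by
  rcases a with ⟨i, x⟩ | ⟨x, y⟩ <;> rcases b with ⟨j, x'⟩ | ⟨x', y'⟩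
  · by_cases hij : i = j
    · subst hij
      have hx : x ≠ x' := fun e => hab (by rw [e])
      have h1 := (cll hG i x x' u v).trans
        (Nat.mul_le_mul (h.hS x x' hx (fun e => hn (tps_ll e)) u v huv) h.hW)
      omega
    · have hj : j = !i := by cases i <;> cases j <;> simp_all
      subst hj
      have h1 := (clr hG i x x' u v).trans (Nat.mul_le_mul (h.hF x u) (h.hF x' v))
      omega
  · have h1 := tps_one hG h i x x' y' hn huv
    omega
  · have h1 := (congrArg Finset.card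
      (w2s (G := G) (d := d + 1) (Sum.inr (x, y)) (Sum.inl (j, x')) u v)).le.trans
      (tps_one hG h j x' x y (fun e => hn e.symm) huv.symm)
    omega
  · have h1 := cmm hG x y x' y' u v
    by_cases hx : x = x'
    · subst hx
      have hy : y ≠ y' := fun e => hab (by rw [e])
      have h2 := h1.trans (Nat.mul_le_mul (wbs hG h x huv) ((wbq hG h hy u v).trans hT))
      omega
    · by_cases hy : y = y'
      · subst hy
        have h2 := h1.trans (Nat.mul_le_mul ((wbq hG h hx u v).trans hT) (wbs hG h y huv))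
        rw [Nat.mul_comm T F] at h2
        omega
      · have h2 := h1.trans
          (Nat.mul_le_mul ((wbq hG h hx u v).trans hT) ((wbq hG h hy u v).trans hT))
        omega
-- END tps

-- BEGIN nmt
/-- ROW nmt. Numbers. With `X = A * L ^ (B + 1) * n ^ N`: `4 m² S n ≤ 4 L S n² ≤ 4 X`; `m P n² ≤ A L ^ B m² n ^ N ≤ n X`, so `m P n ≤ X`. -/
theorem nmt {A B L m n N P S : ℕ} (hn : 1 ≤ n) (hmL : m ^ 2 ≤ L * n)
    (hP : P * n ^ 2 ≤ A * L ^ B * m * n ^ N) (hS : S * n ^ 2 ≤ A * L ^ B * n ^ N) :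
    m * P * n ≤ A * L ^ (B + 1) * n ^ N ∧ m ^ 2 * S * n ≤ A * L ^ (B + 1) * n ^ N ∧
      (2 * m * (2 * m * S) + 2 * (2 * m * P)) * n ≤ 8 * (A * L ^ (B + 1) * n ^ N) := by
  have h1 : m * P * n ≤ A * L ^ (B + 1) * n ^ N := by
    refine Nat.le_of_mul_le_mul_right ?_ hn
    calc m * P * n * n = m * (P * n ^ 2) := by ring
      _ ≤ m * (A * L ^ B * m * n ^ N) := Nat.mul_le_mul_left _ hP
      _ = A * L ^ B * n ^ N * m ^ 2 := by ring
      _ ≤ A * L ^ B * n ^ N * (L * n) := Nat.mul_le_mul_left _ hmL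
      _ = A * L ^ (B + 1) * n ^ N * n := by ring
  have h2 : m ^ 2 * S * n ≤ A * L ^ (B + 1) * n ^ N := by
    refine Nat.le_of_mul_le_mul_right ?_ hn
    calc m ^ 2 * S * n * n = m ^ 2 * (S * n ^ 2) := by ring
      _ ≤ m ^ 2 * (A * L ^ B * n ^ N) := Nat.mul_le_mul_left _ hS
      _ ≤ L * n * (A * L ^ B * n ^ N) := Nat.mul_le_mul_right _ hmL
      _ = A * L ^ (B + 1) * n ^ N * n := by ring
  refine ⟨h1, h2, ?_⟩
  have h3 : (2 * m * (2 * m * S) + 2 * (2 * m * P)) * n =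
      4 * (m ^ 2 * S * n) + 4 * (m * P * n) := by ring
  rw [h3]
  omega
-- END nmt

-- BEGIN nmp
/-- from `a * n ≤ b`, `c * n ≤ d` -/
theorem nmp_mul {a b c d n : ℕ} (h1 : a * n ≤ b) (h2 : c * n ≤ d) : a * c * n ^ 2 ≤ b * d := by
  calc a * c * n ^ 2 = (a * n) * (c * n) := by ring
    _ ≤ b * d := Nat.mul_le_mul h1 h2

/-- ROW nmp. Numbers. With `X = A * L ^ (B + 1) * n ^ N`: `F n ≤ X`, `S n² ≤ X`, `P n² ≤ m X`, `nmt`, `T n ≤ 8 X`; first sum:
`m X n ^ N + X² + 4 m X² + 2 m X² + 64 X² + 16 m X²`; second: `X n ^ N + X² + 6 X² + 64 X² + 8 X²`; then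
`X n ^ N + 87 X² ≤ (A + 87 A²) L ^ (2 B + 2) n ^ (2 N)`. -/
theorem nmp {A B L m n N F P S T : ℕ} (hL : 1 ≤ L) (hm : 1 ≤ m) (hn : 1 ≤ n) (hmL : m ^ 2 ≤ L * n)
    (hF : F * n ≤ A * L ^ B * n ^ N) (hP : P * n ^ 2 ≤ A * L ^ B * m * n ^ N)
    (hS : S * n ^ 2 ≤ A * L ^ B * n ^ N) (hT : T * n ≤ 8 * (A * L ^ (B + 1) * n ^ N)) :
    (P * n ^ N + F * F + 2 * m * P * (2 * m * F) + F * (2 * m * F) + T * T + 2 * m * F * T) * n ^ 2 ≤
      (A + 87 * A ^ 2) * L ^ (2 * B + 2) * m * n ^ (N + N) ∧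
    (S * n ^ N + F * F + (2 * m * S + P) * (2 * m * F) + T * T + F * T) * n ^ 2 ≤
      (A + 87 * A ^ 2) * L ^ (2 * B + 2) * n ^ (N + N) := by
  obtain ⟨h1, h2, -⟩ := nmt hn hmL hP hS
  obtain ⟨X, hX⟩ : ∃ X : ℕ, X = A * L ^ (B + 1) * n ^ N := ⟨_, rfl⟩
  obtain ⟨Y, hY⟩ : ∃ Y : ℕ, Y = A * L ^ B * n ^ N := ⟨_, rfl⟩
  have hYX : Y ≤ X := by
    rw [hX, hY]
    exact Nat.mul_le_mul_right _ (Nat.mul_le_mul_left _ (Nat.pow_le_pow_right hL (Nat.le_succ B)))
  have hP' : P * n ^ 2 ≤ m * X := by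
    calc P * n ^ 2 ≤ A * L ^ B * m * n ^ N := hP
      _ = m * Y := by rw [hY]; ring
      _ ≤ m * X := Nat.mul_le_mul_left _ hYX
  rw [← hY] at hF hS
  rw [← hX] at hT h1 h2
  have hF' : F * n ≤ X := hF.trans hYX
  have hS' : S * n ^ 2 ≤ X := hS.trans hYX
  have hZ : X * n ^ N + 87 * X ^ 2 ≤ (A + 87 * A ^ 2) * L ^ (2 * B + 2) * n ^ (N + N) := by
    have e1 : X * n ^ N ≤ A * L ^ (2 * B + 2) * n ^ (N + N) := by
      calc X * n ^ N = A * L ^ (B + 1) * n ^ (N + N) := by rw [hX, pow_add]; ring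
        _ ≤ A * L ^ (2 * B + 2) * n ^ (N + N) :=
          Nat.mul_le_mul_right _ (Nat.mul_le_mul_left _ (Nat.pow_le_pow_right hL (by omega)))
    have e2 : 87 * X ^ 2 = 87 * A ^ 2 * L ^ (2 * B + 2) * n ^ (N + N) := by
      rw [hX, pow_add n N N, show 2 * B + 2 = (B + 1) + (B + 1) by omega, pow_add L (B + 1) (B + 1)]
      ring
    rw [e2]
    calc X * n ^ N + 87 * A ^ 2 * L ^ (2 * B + 2) * n ^ (N + N)
        ≤ A * L ^ (2 * B + 2) * n ^ (N + N) + 87 * A ^ 2 * L ^ (2 * B + 2) * n ^ (N + N) := Nat.add_le_add_right e1 _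
      _ = (A + 87 * A ^ 2) * L ^ (2 * B + 2) * n ^ (N + N) := by ring
  have f1 := nmp_mul hF' hF'
  have f2 := nmp_mul h1 hF'
  have f3 := nmp_mul hT hT
  have f4 := nmp_mul hF' hT
  have f5 : m * (m * S) * F * n ^ 2 ≤ X * X := by
    have h3 : m * (m * S) * n ≤ X := by
      calc m * (m * S) * n = m ^ 2 * S * n := by ring
        _ ≤ X := h2
    exact nmp_mul h3 hF'
  have hXX : X * X = X ^ 2 := by ring
  have hmX : X * X ≤ m * X ^ 2 := by
    rw [hXX]
    exact Nat.le_mul_of_pos_left _ hm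
  constructor
  · calc (P * n ^ N + F * F + 2 * m * P * (2 * m * F) + F * (2 * m * F) + T * T + 2 * m * F * T) * n ^ 2
        = (P * n ^ 2) * n ^ N + F * F * n ^ 2 + 4 * m * (m * P * F * n ^ 2) + 2 * m * (F * F * n ^ 2) + T * T * n ^ 2
            + 2 * m * (F * T * n ^ 2) := by ring
      _ ≤ (m * X) * n ^ N + X * X + 4 * m * (X * X) + 2 * m * (X * X) + (8 * X) * (8 * X) + 2 * m * (X * (8 * X)) := by
        gcongr
      _ = m * (X * n ^ N) + 65 * (X * X) + 22 * m * X ^ 2 := by ring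
      _ ≤ m * (X * n ^ N) + 65 * (m * X ^ 2) + 22 * m * X ^ 2 := by gcongr
      _ = m * (X * n ^ N + 87 * X ^ 2) := by ring
      _ ≤ m * ((A + 87 * A ^ 2) * L ^ (2 * B + 2) * n ^ (N + N)) := Nat.mul_le_mul_left _ hZ
      _ = (A + 87 * A ^ 2) * L ^ (2 * B + 2) * m * n ^ (N + N) := by ring
  · calc (S * n ^ N + F * F + (2 * m * S + P) * (2 * m * F) + T * T + F * T) * n ^ 2
        = (S * n ^ 2) * n ^ N + F * F * n ^ 2 + 4 * (m * (m * S) * F * n ^ 2) + 2 * (m * P * F * n ^ 2) + T * T * n ^ 2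
            + F * T * n ^ 2 := by ring
      _ ≤ X * n ^ N + X * X + 4 * (X * X) + 2 * (X * X) + (8 * X) * (8 * X) + X * (8 * X) := by
        gcongr
      _ = X * n ^ N + 79 * X ^ 2 := by ring
      _ ≤ X * n ^ N + 87 * X ^ 2 := by gcongr; norm_num
      _ ≤ (A + 87 * A ^ 2) * L ^ (2 * B + 2) * n ^ (N + N) := hZ
-- END nmp

-- BEGIN two
/-- ROW two. Induction on `d`. `d = 0`: `x ≠ y` is impossible (`Unit`), `F = 1`, `P = S = 0`, `A = 1`, `B = 0`. Step: `T` is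
`2 * m * (2 * m * S) + 2 * (2 * m * P)`, `P'` and `S'` the right sides of `tpp`, `tps`, `F' = A' * L ^ B' * n ^ N' / n` from `fib (d + 1)`,
`ubd`, `deg`; `nmt`, `nmp`; constants `A + 87 * A ^ 2 + A'`, `2 * B + 2 + B'`. -/
theorem two (d : ℕ) : ∃ A B : ℕ, ∀ (V : Type) [Fintype V] (G : SimpleGraph V) (m L : ℕ), C4F G →
    Alp G m → m ^ 2 ≤ L * Fintype.card V → ∃ F P S : ℕ,
      Bd G d (Fintype.card V ^ (2 ^ d)) F P S (2 * m) ∧
      F * Fintype.card V ≤ A * L ^ B * Fintype.card V ^ (2 ^ d) ∧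
      P * Fintype.card V ^ 2 ≤ A * L ^ B * m * Fintype.card V ^ (2 ^ d) ∧
      S * Fintype.card V ^ 2 ≤ A * L ^ B * Fintype.card V ^ (2 ^ d) := by
  induction d with
  | zero =>
    refine ⟨1, 0, fun V _ G m L hG hm hmL => ⟨1, 0, 0, ⟨ubd hG 0, ?_, ?_, ?_, ?_⟩, ?_, ?_, ?_⟩⟩
    · intro x u
      refine Finset.card_le_one.2 fun φ hφ ψ hψ => funext fun a => ?_
      unfold w1 at hφ hψ
      rw [Finset.mem_filter] at hφ hψ
      have ha : a = x := Subsingleton.elim (α := Unit) a x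
      rw [ha, hφ.2, hψ.2]
    · intro x y hxy
      exact absurd (Subsingleton.elim (α := Unit) x y) hxy
    · intro x y hxy
      exact absurd (Subsingleton.elim (α := Unit) x y) hxy
    · intro v
      exact (deg hG hm univ v).le
    · simp
    · simp
    · simp
  | succ d ih =>
    obtain ⟨A, B, hA⟩ := ih
    obtain ⟨A', B', hA'⟩ := fib (d + 1)
    refine ⟨A + 87 * A ^ 2 + A', 2 * B + 2 + B', fun V _ G m L hG hm hmL => ?_⟩
    obtain ⟨F, P, S, hB, hF, hP, hS⟩ := hA V G m L hG hm hmL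
    have hm1 : 1 ≤ m := alp_pos hm
    have hm2 : 1 ≤ m ^ 2 := Nat.one_le_pow _ _ hm1
    have hL : 1 ≤ L := by
      rcases Nat.eq_zero_or_pos L with h | h
      · rw [h, zero_mul] at hmL; omega
      · exact h
    have hn1 : 1 ≤ Fintype.card V := by
      rcases Nat.eq_zero_or_pos (Fintype.card V) with h | h
      · rw [h, mul_zero] at hmL; omega
      · exact h
    have h1 := (nmt hn1 hmL hP hS).2.2
    have h2 := nmp hL hm1 hn1 hmL hF hP hS h1
    have h2N : 2 ^ (d + 1) = 2 ^ d + 2 ^ d := by ring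
    refine ⟨A' * L ^ B' * Fintype.card V ^ (2 ^ (d + 1)) / Fintype.card V, _, _,
      ⟨ubd hG (d + 1), ?_, fun x y hxy u v => tpp hG hB le_rfl hxy u v,
        fun x y hxy hn u v huv => tps hG hB le_rfl hxy hn huv,
        fun v => (deg hG hm univ v).le⟩, ?_, ?_, ?_⟩
    · intro x u
      rw [Nat.le_div_iff_mul_le (by omega)]
      exact hA' V G m L hG hm hmL x u
    · refine (Nat.div_mul_le_self _ _).trans (Nat.mul_le_mul_right _ (Nat.mul_le_mul (by omega) ?_))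
      exact Nat.pow_le_pow_right hL (by omega)
    · rw [h2N]
      refine h2.1.trans (Nat.mul_le_mul_right _ (Nat.mul_le_mul_right _
        (Nat.mul_le_mul (by omega) ?_)))
      exact Nat.pow_le_pow_right hL (by omega)
    · rw [h2N]
      refine h2.2.trans (Nat.mul_le_mul_right _ (Nat.mul_le_mul (by omega) ?_))
      exact Nat.pow_le_pow_right hL (by omega)
-- END two

-- BEGIN nie
/-- ROW nie. Otherwise `Em G (d + 1) φ`: injective by `nin`; for `G.Adj (φ a) (φ b)`: same half `Em`; different halves excluded (third);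
`lf φ x` and `md φ x' y'`: `x = x'`, or the fourth alternative with `v = md φ x' y'` (`lf φ` injective); `rt φ y` and `md φ x' y'`: `y = y'`
or the fifth; two midpoints excluded. `Dg`, `SimpleGraph.fromRel_adj`. -/
theorem nie {G : SimpleGraph V} {d : ℕ} {φ : Vt (d + 1) → V} (h : Wk G (d + 1) φ)
    (hn : ¬ Em G (d + 1) φ) :
    ¬ Em G d (lf φ) ∨ ¬ Em G d (rt φ) ∨
      ((∃ x y, G.Adj (lf φ x) (rt φ y)) ∨
      (∃ x x' y, lf φ x ≠ lf φ x' ∧ ∃ v, G.Adj v (lf φ x) ∧ G.Adj v (lf φ x') ∧ G.Adj v (rt φ y)) ∨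
      (∃ y y' x, rt φ y ≠ rt φ y' ∧ ∃ v, G.Adj v (rt φ y) ∧ G.Adj v (rt φ y') ∧ G.Adj v (lf φ x))) ∨
      ((∀ x y, ¬ G.Adj (lf φ x) (rt φ y)) ∧ ∃ x y x' y', G.Adj (md φ x y) (md φ x' y')) := by
  by_cases e1 : Em G d (lf φ)
  swap
  · exact Or.inl e1
  by_cases e2 : Em G d (rt φ)
  swap
  · exact Or.inr (Or.inl e2)
  refine Or.inr (Or.inr ?_)
  by_contra hcon
  have hA : ∀ x y, ¬ G.Adj (lf φ x) (rt φ y) := fun x y hx => hcon (Or.inl (Or.inl ⟨x, y, hx⟩))
  have hM : ∀ x y x' y', ¬ G.Adj (md φ x y) (md φ x' y') := fun x y x' y' hx =>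
    hcon (Or.inr ⟨hA, x, y, x', y', hx⟩)
  have hinj : Function.Injective φ := by
    by_contra hi
    rcases nin h hi with h1 | h1 | h1
    · exact h1 e1.1
    · exact h1 e2.1
    · exact hcon (Or.inl h1)
  have hm := h.2.2
  have hl : ∀ x x' y', G.Adj (lf φ x) (md φ x' y') → x = x' := by
    intro x x' y' hx
    by_contra hne
    refine hcon (Or.inl (Or.inr (Or.inl ⟨x, x', y', fun he => hne (e1.1 he), md φ x' y', hx.symm, ?_, ?_⟩)))
    · exact (hm x' y').2.1.symm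
    · exact (hm x' y').2.2
  have hr : ∀ y x' y', G.Adj (rt φ y) (md φ x' y') → y = y' := by
    intro y x' y' hx
    by_contra hne
    refine hcon (Or.inl (Or.inr (Or.inr ⟨y, y', x', fun he => hne (e2.1 he), md φ x' y', hx.symm, ?_, ?_⟩)))
    · exact (hm x' y').2.2
    · exact (hm x' y').2.1.symm
  refine hn ⟨hinj, fun a b hab => ?_⟩
  have hne : a ≠ b := by
    intro he
    rw [he] at hab
    exact G.loopless.irrefl _ hab
  refine (SimpleGraph.fromRel_adj _ a b).2 ⟨hne, ?_⟩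
  rcases a with ⟨i, x⟩ | ⟨x, y⟩ <;> rcases b with ⟨j, x'⟩ | ⟨x', y'⟩
  · cases i <;> cases j
    · exact Or.inl ⟨rfl, e1.2 x x' hab⟩
    · exact absurd (show G.Adj (lf φ x) (rt φ x') from hab) (hA x x')
    · exact absurd (show G.Adj (lf φ x') (rt φ x) from hab.symm) (hA x' x)
    · exact Or.inl ⟨rfl, e2.2 x x' hab⟩
  · cases i
    · exact Or.inl (hl x x' y' hab)
    · exact Or.inl (hr x x' y' hab)
  · cases j
    · exact Or.inr (hl x' x y hab.symm)
    · exact Or.inr (hr x' x y hab.symm)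
  · exact absurd (show G.Adj (md φ x y) (md φ x' y') from hab) (hM x y x' y')
-- END nie

-- BEGIN sxa
private def sxa_c (G : SimpleGraph V) (w t : V) : V :=
  if h : ∃ z, G.Adj w z ∧ G.Adj t z then h.choose else w

private theorem sxa_c_eq {G : SimpleGraph V} (hG : C4F G) {w t z : V} (hwt : w ≠ t)
    (h1 : G.Adj w z) (h2 : G.Adj t z) : sxa_c G w t = z := by
  unfold sxa_c
  have h : ∃ z, G.Adj w z ∧ G.Adj t z := ⟨z, h1, h2⟩
  rw [dif_pos h]
  by_contra hne
  exact hG w t _ _ hwt hne h.choose_spec.1 h1 h.choose_spec.2 h2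

/-- ROW sxa. For `ψ = lf φ` (in `wk G d`) and `w = md φ x y ∈ nb G univ (ψ x)` there is at most one possible `w' = md φ x' y'`: it is adjacent
to `w` and to `ψ x'`, and `w ≠ ψ x'` (otherwise `lf φ x'` is adjacent to `rt φ y`); then `rt φ ∈ wb G d y y' w w'`, `wbq`; `φ` is determined by `lf φ`,
`rt φ` (`uni`). E.g. `Finset.card_le_card_of_injOn` with `φ ↦ ⟨lf φ, ⟨md φ x y, rt φ⟩⟩` into a `Finset.sigma`, `w'` by choice. -/
theorem sxa {G : SimpleGraph V} (hG : C4F G) {d W F P S q T : ℕ} (h : Bd G d W F P S q)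
    (hT : q * (q * S) + 2 * (q * P) ≤ T) (x x' : Vt d) {y y' : Vt d} (hy : y ≠ y') :
    ((wk G (d + 1)).filter fun φ => (∀ a b, ¬ G.Adj (lf φ a) (rt φ b)) ∧
      G.Adj (md φ x y) (md φ x' y')).card ≤ (wk G d).card * (q * T) := by
  have hle : ((wk G (d + 1)).filter fun φ => (∀ a b, ¬ G.Adj (lf φ a) (rt φ b)) ∧
      G.Adj (md φ x y) (md φ x' y')).card ≤
      ((wk G d).sigma fun ψ => (nb G univ (ψ x)).sigma fun w =>
        wb G d y y' w (sxa_c G w (ψ x'))).card := by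
    refine Finset.card_le_card_of_injOn (fun φ => ⟨lf φ, ⟨md φ x y, rt φ⟩⟩) ?_ ?_
    · intro φ hφ
      rw [Finset.mem_coe, Finset.mem_filter, mem_wk] at hφ
      obtain ⟨⟨h1, h2, h3⟩, hn, ha⟩ := hφ
      have hwt : md φ x y ≠ lf φ x' := by
        intro e
        have h4 := (h3 x y).2.2
        rw [e] at h4
        exact hn x' y h4
      have e := sxa_c_eq hG hwt ha (h3 x' y').2.1
      rw [Finset.mem_coe, Finset.mem_sigma]
      refine ⟨mem_wk.2 h1, ?_⟩
      rw [Finset.mem_sigma]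
      refine ⟨mem_nb.2 ⟨Finset.mem_univ _, (h3 x y).2.1⟩, ?_⟩
      show rt φ ∈ wb G d y y' (md φ x y) (sxa_c G (md φ x y) (lf φ x'))
      rw [e]
      exact Finset.mem_filter.2 ⟨mem_wk.2 h2, (h3 x y).2.2, (h3 x' y').2.2⟩
    · intro φ hφ ψ hψ hh
      rw [Finset.mem_coe, Finset.mem_filter, mem_wk] at hφ hψ
      have e1 : lf φ = lf ψ := congrArg Sigma.fst hh
      have e2 : rt φ = rt ψ :=
        congrArg (fun s : (Σ _ : Vt d → V, Σ _ : V, (Vt d → V)) => s.2.2) hh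
      exact uni hG hφ.1 hψ.1 e1 e2
  refine hle.trans ?_
  rw [Finset.card_sigma]
  refine (Finset.sum_le_card_nsmul _ _ (q * T) fun ψ _ => ?_).trans (le_of_eq (smul_eq_mul _ _))
  rw [Finset.card_sigma]
  refine (Finset.sum_le_card_nsmul _ _ T fun w _ => (wbq hG h hy _ _).trans hT).trans ?_
  rw [smul_eq_mul]
  exact Nat.mul_le_mul_right _ (h.hq _)
-- END sxa

-- BEGIN sxb
/-- ROW sxb. As `sxa` with left and right exchanged: `χ = rt φ`, `w = md φ x y ∈ nb G univ (χ y)`, `w' = md φ x' y'` adjacent to `w` and `χ y'`,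
`w ≠ χ y'` (otherwise `rt φ y'` is adjacent to `lf φ x`); `lf φ ∈ wb G d x x' w w'`. -/
theorem sxb {G : SimpleGraph V} (hG : C4F G) {d W F P S q T : ℕ} (h : Bd G d W F P S q)
    (hT : q * (q * S) + 2 * (q * P) ≤ T) {x x' : Vt d} (hx : x ≠ x') (y y' : Vt d) :
    ((wk G (d + 1)).filter fun φ => (∀ a b, ¬ G.Adj (lf φ a) (rt φ b)) ∧
      G.Adj (md φ x y) (md φ x' y')).card ≤ (wk G d).card * (q * T) := by
  have hle : ((wk G (d + 1)).filter fun φ => (∀ a b, ¬ G.Adj (lf φ a) (rt φ b)) ∧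
      G.Adj (md φ x y) (md φ x' y')).card ≤
      ((wk G d).sigma fun ψ => (nb G univ (ψ y)).sigma fun w =>
        wb G d x x' w (sxa_c G w (ψ y'))).card := by
    refine Finset.card_le_card_of_injOn (fun φ => ⟨rt φ, ⟨md φ x y, lf φ⟩⟩) ?_ ?_
    · intro φ hφ
      rw [Finset.mem_coe, Finset.mem_filter, mem_wk] at hφ
      obtain ⟨⟨h1, h2, h3⟩, hn, ha⟩ := hφ
      have hwt : md φ x y ≠ rt φ y' := by
        intro e
        have h4 := (h3 x y).2.1
        rw [e] at h4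
        exact hn x y' h4
      have e := sxa_c_eq hG hwt ha (h3 x' y').2.2.symm
      rw [Finset.mem_coe, Finset.mem_sigma]
      refine ⟨mem_wk.2 h2, ?_⟩
      rw [Finset.mem_sigma]
      refine ⟨mem_nb.2 ⟨Finset.mem_univ _, (h3 x y).2.2.symm⟩, ?_⟩
      show lf φ ∈ wb G d x x' (md φ x y) (sxa_c G (md φ x y) (rt φ y'))
      rw [e]
      exact Finset.mem_filter.2 ⟨mem_wk.2 h1, (h3 x y).2.1.symm, (h3 x' y').2.1.symm⟩
    · intro φ hφ ψ hψ hh
      rw [Finset.mem_coe, Finset.mem_filter, mem_wk] at hφ hψ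
      have e1 : rt φ = rt ψ := congrArg Sigma.fst hh
      have e2 : lf φ = lf ψ :=
        congrArg (fun s : (Σ _ : Vt d → V, Σ _ : V, (Vt d → V)) => s.2.2) hh
      exact uni hG hφ.1 hψ.1 e2 e1
  refine hle.trans ?_
  rw [Finset.card_sigma]
  refine (Finset.sum_le_card_nsmul _ _ (q * T) fun ψ _ => ?_).trans (le_of_eq (smul_eq_mul _ _))
  rw [Finset.card_sigma]
  refine (Finset.sum_le_card_nsmul _ _ T fun w _ => (wbq hG h hx _ _).trans hT).trans ?_
  rw [smul_eq_mul]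
  exact Nat.mul_le_mul_right _ (h.hq _)
-- END sxb

-- BEGIN nsb
/-- ROW nsb. Union over `x, y, x', y'`: `sxa` if `y ≠ y'`, `sxb` if `x ≠ x'`, empty if both are equal (`G.loopless`). -/
theorem nsb {G : SimpleGraph V} (hG : C4F G) {d W F P S q T : ℕ} (h : Bd G d W F P S q)
    (hT : q * (q * S) + 2 * (q * P) ≤ T) :
    ((wk G (d + 1)).filter fun φ => (∀ x y, ¬ G.Adj (lf φ x) (rt φ y)) ∧
      ∃ x y x' y', G.Adj (md φ x y) (md φ x' y')).card ≤
      Fintype.card (Vt d) ^ 4 * ((wk G d).card * (q * T)) := by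
  classical
  have hsub : ((wk G (d + 1)).filter fun φ => (∀ x y, ¬ G.Adj (lf φ x) (rt φ y)) ∧
      ∃ x y x' y', G.Adj (md φ x y) (md φ x' y')) ⊆
      (Finset.univ : Finset (Vt d × Vt d × Vt d × Vt d)).biUnion fun t =>
        (wk G (d + 1)).filter fun φ => (∀ a b, ¬ G.Adj (lf φ a) (rt φ b)) ∧
          G.Adj (md φ t.1 t.2.1) (md φ t.2.2.1 t.2.2.2) := by
    intro φ hφ
    obtain ⟨h1, h2, x, y, x', y', h3⟩ := Finset.mem_filter.1 hφ
    rw [Finset.mem_biUnion]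
    exact ⟨(x, y, x', y'), Finset.mem_univ _, Finset.mem_filter.2 ⟨h1, h2, h3⟩⟩
  refine (Finset.card_le_card hsub).trans ?_
  refine (Finset.card_biUnion_le_card_mul _ _ ((wk G d).card * (q * T)) ?_).trans ?_
  · rintro ⟨x, y, x', y'⟩ _
    by_cases hy : y = y'
    · by_cases hx : x = x'
      · subst hy hx
        rw [Finset.filter_false_of_mem fun φ _ hφ => G.loopless.irrefl _ hφ.2, Finset.card_empty]
        exact Nat.zero_le _
      · exact sxb hG h hT hx y y'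
    · exact sxa hG h hT x x' hy
  · rw [Finset.card_univ, Fintype.card_prod, Fintype.card_prod, Fintype.card_prod]
    exact Nat.mul_le_mul_right _ (le_of_eq (by ring))
-- END nsb

-- BEGIN nsa
private theorem nsa_q {G : SimpleGraph V} {m : ℕ} (hG : C4F G) (hm : Alp G m) (a b : V) :
    (univ.filter fun u => a ≠ b ∧ ∃ v, G.Adj v a ∧ G.Adj v b ∧ G.Adj v u).card ≤ 2 * m := by
  by_cases h : a ≠ b ∧ ∃ v, G.Adj v a ∧ G.Adj v b
  · obtain ⟨hab, v, h1, h2⟩ := h
    refine le_trans (Finset.card_le_card ?_) (deg hG hm univ v).le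
    intro u hu
    rw [Finset.mem_filter] at hu
    obtain ⟨_, _, w, h3, h4, h5⟩ := hu
    rw [mem_nb]
    refine ⟨Finset.mem_univ _, ?_⟩
    by_cases hwv : w = v
    · rw [← hwv]
      exact h5
    · exact (hG w v a b hwv hab h3 h4 h1 h2).elim
  · rw [Finset.card_eq_zero.2 (Finset.filter_eq_empty_iff.2 ?_)]
    · exact Nat.zero_le _
    · rintro u _ ⟨h1, v, h2, h3, _⟩
      exact h ⟨h1, v, h2, h3⟩

private theorem nsa_num {c w M m n x3 x4 x5 : ℕ} (h : n ≤ x3 + x4 + x5)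
    (h3 : x3 ≤ c ^ 2 * (w * (2 * m * M)))
    (h4 : x4 ≤ c ^ 3 * (w * (2 * m * M))) (h5 : x5 ≤ c ^ 3 * (w * (2 * m * M))) :
    n ≤ 3 * c ^ 3 * (w * (2 * m * M)) := by
  have h6 : c ^ 2 ≤ c ^ 3 := by
    rcases Nat.eq_zero_or_pos c with h | h
    · rw [h]
      exact le_rfl
    · exact Nat.pow_le_pow_right h (by norm_num)
  have h7 := Nat.mul_le_mul_right (w * (2 * m * M)) h6
  have h9 : 3 * c ^ 3 * (w * (2 * m * M)) = 3 * (c ^ 3 * (w * (2 * m * M))) := by ring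
  omega

/-- ROW nsa. This is part of the proof of `nis` (C4k/Rec.lean, row nis): copy it (`nis_q` is private there). -/
theorem nsa {G : SimpleGraph V} {m : ℕ} (hG : C4F G) (hm : Alp G m) {d M : ℕ}
    (hM : ∀ x v, ((wk G d).filter fun ψ => ψ x = v).card ≤ M) :
    ((wk G (d + 1)).filter fun φ => (∃ x y, G.Adj (lf φ x) (rt φ y)) ∨
      (∃ x x' y, lf φ x ≠ lf φ x' ∧ ∃ v, G.Adj v (lf φ x) ∧ G.Adj v (lf φ x') ∧ G.Adj v (rt φ y)) ∨
      (∃ y y' x, rt φ y ≠ rt φ y' ∧ ∃ v, G.Adj v (rt φ y) ∧ G.Adj v (rt φ y') ∧ G.Adj v (lf φ x))).card ≤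
      3 * Fintype.card (Vt d) ^ 3 * ((wk G d).card * (2 * m * M)) := by
  obtain ⟨T, hT⟩ : ∃ T : V → V → Finset V, ∀ a b, T a b =
    univ.filter fun u => a ≠ b ∧ ∃ v, G.Adj v a ∧ G.Adj v b ∧ G.Adj v u := ⟨_, fun a b => rfl⟩
  have hT2 : ∀ a b, (T a b).card ≤ 2 * m := fun a b => by
    rw [hT]
    exact nsa_q hG hm a b
  have h3 : ((univ : Finset (Vt d × Vt d)).biUnion fun p =>
      (wk G (d + 1)).filter fun φ => rt φ p.2 ∈ nb G univ (lf φ p.1)).card ≤
      Fintype.card (Vt d) ^ 2 * ((wk G d).card * (2 * m * M)) := by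
    have h := Finset.card_biUnion_le_card_mul (univ : Finset (Vt d × Vt d)) (fun p =>
      (wk G (d + 1)).filter fun φ => rt φ p.2 ∈ nb G univ (lf φ p.1))
      ((wk G d).card * (2 * m * M)) (fun p _ => (pai hG p.2 (hM p.2)
        (fun ψ => nb G univ (ψ p.1)) (fun ψ _ => (deg hG hm univ (ψ p.1)).le)).1)
    rwa [Finset.card_univ, Fintype.card_prod, ← sq] at h
  have h4 : ((univ : Finset (Vt d × Vt d × Vt d)).biUnion fun p =>
      (wk G (d + 1)).filter fun φ => rt φ p.2.2 ∈ T (lf φ p.1) (lf φ p.2.1)).card ≤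
      Fintype.card (Vt d) ^ 3 * ((wk G d).card * (2 * m * M)) := by
    have h := Finset.card_biUnion_le_card_mul (univ : Finset (Vt d × Vt d × Vt d)) (fun p =>
      (wk G (d + 1)).filter fun φ => rt φ p.2.2 ∈ T (lf φ p.1) (lf φ p.2.1))
      ((wk G d).card * (2 * m * M)) (fun p _ => (pai hG p.2.2 (hM p.2.2)
        (fun ψ => T (ψ p.1) (ψ p.2.1)) (fun ψ _ => hT2 _ _)).1)
    rw [Finset.card_univ, Fintype.card_prod, Fintype.card_prod] at h
    have e : Fintype.card (Vt d) * (Fintype.card (Vt d) * Fintype.card (Vt d)) =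
      Fintype.card (Vt d) ^ 3 := by ring
    rwa [e] at h
  have h5 : ((univ : Finset (Vt d × Vt d × Vt d)).biUnion fun p =>
      (wk G (d + 1)).filter fun φ => lf φ p.2.2 ∈ T (rt φ p.1) (rt φ p.2.1)).card ≤
      Fintype.card (Vt d) ^ 3 * ((wk G d).card * (2 * m * M)) := by
    have h := Finset.card_biUnion_le_card_mul (univ : Finset (Vt d × Vt d × Vt d)) (fun p =>
      (wk G (d + 1)).filter fun φ => lf φ p.2.2 ∈ T (rt φ p.1) (rt φ p.2.1))
      ((wk G d).card * (2 * m * M)) (fun p _ => (pai hG p.2.2 (hM p.2.2)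
        (fun ψ => T (ψ p.1) (ψ p.2.1)) (fun ψ _ => hT2 _ _)).2)
    rw [Finset.card_univ, Fintype.card_prod, Fintype.card_prod] at h
    have e : Fintype.card (Vt d) * (Fintype.card (Vt d) * Fintype.card (Vt d)) =
      Fintype.card (Vt d) ^ 3 := by ring
    rwa [e] at h
  refine nsa_num (le_trans (Finset.card_le_card (fun φ hφ => ?_))
    ((Finset.card_union_le _ _).trans (Nat.add_le_add_right
      (Finset.card_union_le _ _) _))) h3 h4 h5
  obtain ⟨hφ, hn⟩ := Finset.mem_filter.1 hφ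
  simp only [Finset.mem_union, Finset.mem_biUnion, Finset.mem_univ, true_and, Finset.mem_filter]
  rcases hn with ⟨x, y, h⟩ | ⟨x, x', y, hx, v, e1, e2, e3⟩ | ⟨y, y', x, hy, v, e1, e2, e3⟩
  · exact Or.inl (Or.inl ⟨(x, y), hφ, mem_nb.2 ⟨Finset.mem_univ _, h⟩⟩)
  · refine Or.inl (Or.inr ⟨(x, x', y), hφ, ?_⟩)
    rw [hT]
    exact Finset.mem_filter.2 ⟨Finset.mem_univ _, hx, v, e1, e2, e3⟩
  · refine Or.inr ⟨(y, y', x), hφ, ?_⟩
    rw [hT]
    exact Finset.mem_filter.2 ⟨Finset.mem_univ _, hy, v, e1, e2, e3⟩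
-- END nsa

-- BEGIN nes
/-- ROW nes. `nie` and a union bound: `prd` (`be G d`, `wk G d`) for the first two, `nsa` (`hF`, `w1`), `nsb`. -/
theorem nes {G : SimpleGraph V} {m : ℕ} (hG : C4F G) (hm : Alp G m) {d W F P S T : ℕ}
    (h : Bd G d W F P S (2 * m)) (hT : 2 * m * (2 * m * S) + 2 * (2 * m * P) ≤ T) :
    (be G (d + 1)).card ≤ 2 * ((be G d).card * (wk G d).card) +
      3 * Fintype.card (Vt d) ^ 3 * ((wk G d).card * (2 * m * F)) +
      Fintype.card (Vt d) ^ 4 * ((wk G d).card * (2 * m * T)) := by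
  have hw : ∀ φ ∈ wk G (d + 1), Wk G (d + 1) φ ∧ lf φ ∈ wk G d ∧ rt φ ∈ wk G d := fun φ hφ => by
    have h := mem_wk.1 hφ
    exact ⟨h, mem_wk.2 h.1, mem_wk.2 h.2.1⟩
  have h1 : ((wk G (d + 1)).filter fun φ => ¬ Em G d (lf φ)).card ≤
      (be G d).card * (wk G d).card := by
    refine prd hG fun φ hφ => ?_
    rw [Finset.mem_filter] at hφ
    obtain ⟨a, b, c⟩ := hw φ hφ.1
    exact ⟨a, Finset.mem_filter.2 ⟨b, hφ.2⟩, c⟩
  have h2 : ((wk G (d + 1)).filter fun φ => ¬ Em G d (rt φ)).card ≤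
      (wk G d).card * (be G d).card := by
    refine prd hG fun φ hφ => ?_
    rw [Finset.mem_filter] at hφ
    obtain ⟨a, b, c⟩ := hw φ hφ.1
    exact ⟨a, b, Finset.mem_filter.2 ⟨c, hφ.2⟩⟩
  have h3 := nsa hG hm (d := d) (M := F) h.hF
  have h4 := nsb hG h hT
  rw [Nat.mul_comm (wk G d).card (be G d).card] at h2
  refine le_trans (Finset.card_le_card (t := ((wk G (d + 1)).filter fun φ => ¬ Em G d (lf φ)) ∪
    ((wk G (d + 1)).filter fun φ => ¬ Em G d (rt φ)) ∪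
    ((wk G (d + 1)).filter fun φ => (∃ x y, G.Adj (lf φ x) (rt φ y)) ∨
      (∃ x x' y, lf φ x ≠ lf φ x' ∧ ∃ v, G.Adj v (lf φ x) ∧ G.Adj v (lf φ x') ∧ G.Adj v (rt φ y)) ∨
      (∃ y y' x, rt φ y ≠ rt φ y' ∧ ∃ v, G.Adj v (rt φ y) ∧ G.Adj v (rt φ y') ∧ G.Adj v (lf φ x))) ∪
    ((wk G (d + 1)).filter fun φ => (∀ x y, ¬ G.Adj (lf φ x) (rt φ y)) ∧
      ∃ x y x' y', G.Adj (md φ x y) (md φ x' y'))) fun φ hφ => ?_) ?_
  · unfold be at hφ
    obtain ⟨hφ, hn⟩ := Finset.mem_filter.1 hφ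
    rw [Finset.mem_union, Finset.mem_union, Finset.mem_union]
    rcases nie (hw φ hφ).1 hn with h | h | h | h
    · exact Or.inl (Or.inl (Or.inl (Finset.mem_filter.2 ⟨hφ, h⟩)))
    · exact Or.inl (Or.inl (Or.inr (Finset.mem_filter.2 ⟨hφ, h⟩)))
    · exact Or.inl (Or.inr (Finset.mem_filter.2 ⟨hφ, h⟩))
    · exact Or.inr (Finset.mem_filter.2 ⟨hφ, h⟩)
  · refine (Finset.card_union_le _ _).trans ?_
    refine Nat.add_le_add ((Finset.card_union_le _ _).trans ?_) h4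
    refine Nat.add_le_add ((Finset.card_union_le _ _).trans ?_) h3
    rw [Nat.two_mul]
    exact Nat.add_le_add h1 h2
-- END nes

-- BEGIN nej
/-- ROW nej. As `nij` (C4k/Rec.lean). Induction on `d`; `d = 0`: `be G 0 = ∅` (`Unit`; `G.loopless`). Step: `two d` (constants `A2`, `B2`), `nmt` gives
`T * n ≤ 8 * (A2 * L ^ (B2 + 1) * n ^ N)`, `nes`; constants `2 * A + 6 * c ^ 3 * A2 + 16 * c ^ 4 * A2`, `B + B2 + 1`. -/
theorem nej (d : ℕ) : ∃ A B : ℕ, ∀ (V : Type) [Fintype V] (G : SimpleGraph V) (m L : ℕ), C4F G →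
    Alp G m → m ^ 2 ≤ L * Fintype.card V →
      (be G d).card * Fintype.card V ≤ A * L ^ B * m * Fintype.card V ^ (2 ^ d) := by
  induction d with
  | zero =>
    refine ⟨0, 0, fun V _ G m L hG hm hmL => ?_⟩
    have h0 : be G 0 = ∅ := by
      unfold be
      rw [Finset.filter_eq_empty_iff]
      intro φ _ h
      refine h ⟨fun a b _ => Subsingleton.elim (α := Unit) a b, fun a b hab => ?_⟩
      have e : φ a = φ b := congrArg φ (Subsingleton.elim (α := Unit) a b)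
      rw [e] at hab
      exact (hab.ne rfl).elim
    rw [h0, Finset.card_empty, zero_mul]
    exact Nat.zero_le _
  | succ d ih =>
    obtain ⟨A, B, hA⟩ := ih
    obtain ⟨A2, B2, hA2⟩ := two d
    refine ⟨2 * A + 6 * Fintype.card (Vt d) ^ 3 * A2 + 16 * Fintype.card (Vt d) ^ 4 * A2,
      B + B2 + 1, fun V _ G m L hG hm hmL => ?_⟩
    have hm1 : 1 ≤ m := alp_pos hm
    have hm2 : 1 ≤ m ^ 2 := Nat.one_le_pow _ _ hm1
    have hL : 1 ≤ L := by
      rcases Nat.eq_zero_or_pos L with h | h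
      · rw [h, zero_mul] at hmL; omega
      · exact h
    have hn1 : 0 < Fintype.card V := by
      rcases Nat.eq_zero_or_pos (Fintype.card V) with h | h
      · rw [h, mul_zero] at hmL; omega
      · exact h
    obtain ⟨F, P, S, hBd, hF, hP, hS⟩ := hA2 V G m L hG hm hmL
    have h1 := nes hG hm hBd (le_refl (2 * m * (2 * m * S) + 2 * (2 * m * P)))
    have hT := (nmt hn1 hmL hP hS).2.2
    have h2 := hA V G m L hG hm hmL
    have h3 := hBd.hW
    obtain ⟨n, hn⟩ : ∃ n, n = Fintype.card V := ⟨_, rfl⟩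
    obtain ⟨N, hN⟩ : ∃ N, N = 2 ^ d := ⟨_, rfl⟩
    obtain ⟨c, hc⟩ : ∃ c, c = Fintype.card (Vt d) := ⟨_, rfl⟩
    obtain ⟨T, hTT⟩ : ∃ T, T = 2 * m * (2 * m * S) + 2 * (2 * m * P) := ⟨_, rfl⟩
    rw [← hn, ← hN] at h2 h3 hF hT
    rw [← hc, ← hTT] at h1
    rw [← hTT] at hT
    have h2N : 2 ^ (d + 1) = N + N := by rw [hN]; ring
    rw [← hn, ← hc, h2N]
    have e1 : L ^ B ≤ L ^ (B + B2 + 1) := Nat.pow_le_pow_right hL (by omega)
    have e2 : L ^ B2 ≤ L ^ (B + B2 + 1) := Nat.pow_le_pow_right hL (by omega)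
    have e3 : L ^ (B2 + 1) ≤ L ^ (B + B2 + 1) := Nat.pow_le_pow_right hL (by omega)
    calc (be G (d + 1)).card * n
        ≤ (2 * ((be G d).card * (wk G d).card) + 3 * c ^ 3 * ((wk G d).card * (2 * m * F)) +
          c ^ 4 * ((wk G d).card * (2 * m * T))) * n := Nat.mul_le_mul_right n h1
      _ = 2 * ((be G d).card * n) * (wk G d).card +
          3 * c ^ 3 * (wk G d).card * (2 * m) * (F * n) +
          c ^ 4 * (wk G d).card * (2 * m) * (T * n) := by ring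
      _ ≤ 2 * (A * L ^ B * m * n ^ N) * n ^ N +
          3 * c ^ 3 * n ^ N * (2 * m) * (A2 * L ^ B2 * n ^ N) +
          c ^ 4 * n ^ N * (2 * m) * (8 * (A2 * L ^ (B2 + 1) * n ^ N)) := by gcongr
      _ ≤ 2 * (A * L ^ (B + B2 + 1) * m * n ^ N) * n ^ N +
          3 * c ^ 3 * n ^ N * (2 * m) * (A2 * L ^ (B + B2 + 1) * n ^ N) +
          c ^ 4 * n ^ N * (2 * m) * (8 * (A2 * L ^ (B + B2 + 1) * n ^ N)) := by gcongr
      _ = (2 * A + 6 * c ^ 3 * A2 + 16 * c ^ 4 * A2) * L ^ (B + B2 + 1) * m * n ^ (N + N) := by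
          rw [pow_add n N N]; ring
-- END nej

end

/-- As `cop`. -/
theorem coi (d : ℕ) : ∃ A1 B1 : ℕ, ∀ (V : Type) [Fintype V] (G : SimpleGraph V) (m L : ℕ), C4F G →
    Alp G m → m ^ 2 ≤ L * Fintype.card V → A1 * L ^ B1 ≤ m → (Dg d).IsIndContained G := by
  obtain ⟨A1, B1, A2, B2, hlow⟩ := low d 1 0
  obtain ⟨A, B, hnij⟩ := nej d
  refine ⟨A1 + (A2 * A + 1), B1 + (B2 + B + 1), fun V _ G m L hG ha hmL hm => ?_⟩
  have hm1 : 1 ≤ m := alp_pos ha
  have hm2 : 1 ≤ m ^ 2 := Nat.one_le_pow _ _ hm1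
  have hL : 1 ≤ L := by
    rcases Nat.eq_zero_or_pos L with h | h
    · rw [h, zero_mul] at hmL; omega
    · exact h
  have hn1 : 1 ≤ Fintype.card V := by
    rcases Nat.eq_zero_or_pos (Fintype.card V) with h | h
    · rw [h, mul_zero] at hmL; omega
    · exact h
  have e1 : A1 * L ^ B1 ≤ m := by
    refine le_trans ?_ hm
    exact Nat.mul_le_mul (by omega) (Nat.pow_le_pow_right hL (by omega))
  have e2 : (A2 * A + 1) * L ^ (B2 + B + 1) ≤ m := by
    refine le_trans ?_ hm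
    exact Nat.mul_le_mul (by omega) (Nat.pow_le_pow_right hL (by omega))
  by_contra hcon
  have hsub : wu G d univ ⊆ be G d := by
    intro φ hφ
    rw [mem_wu] at hφ
    unfold be
    rw [Finset.mem_filter, mem_wk]
    refine ⟨hφ.1, fun hE => hcon ?_⟩
    exact ⟨⟨⟨φ, hE.1⟩, fun {a b} => ⟨fun hab => hE.2 a b hab, fun hab => hom d hφ.1 a b hab⟩⟩⟩
  have h1 := hlow V G m L hG ha hmL e1 univ (by rw [pow_zero, mul_one, one_mul, Finset.card_univ])
  have h2 := hnij V G m L hG ha hmL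
  have h3 := Finset.card_le_card hsub
  have hpos : 0 < Fintype.card V ^ (2 ^ d) := Nat.pow_pos hn1
  have h4 : Fintype.card V ^ (2 ^ d) * Fintype.card V ≤
      Fintype.card V ^ (2 ^ d) * (A2 * A * L ^ (B2 + B) * m) := by
    calc Fintype.card V ^ (2 ^ d) * Fintype.card V
        ≤ (A2 * L ^ B2 * (wu G d univ).card) * Fintype.card V := Nat.mul_le_mul_right _ h1
      _ ≤ (A2 * L ^ B2 * (be G d).card) * Fintype.card V :=
        Nat.mul_le_mul_right _ (Nat.mul_le_mul_left _ h3)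
      _ = A2 * L ^ B2 * ((be G d).card * Fintype.card V) := by ring
      _ ≤ A2 * L ^ B2 * (A * L ^ B * m * Fintype.card V ^ (2 ^ d)) := Nat.mul_le_mul_left _ h2
      _ = Fintype.card V ^ (2 ^ d) * (A2 * A * L ^ (B2 + B) * m) := by rw [pow_add]; ring
  have h5 := Nat.le_of_mul_le_mul_left h4 hpos
  have h6 : m * m ≤ m * (A2 * A * L ^ (B2 + B + 1)) := by
    calc m * m = m ^ 2 := by ring
      _ ≤ L * Fintype.card V := hmL
      _ ≤ L * (A2 * A * L ^ (B2 + B) * m) := Nat.mul_le_mul_left L h5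
      _ = m * (A2 * A * L ^ (B2 + B + 1)) := by rw [pow_succ]; ring
  have h7 := Nat.le_of_mul_le_mul_left h6 (by omega)
  have h8 : (A2 * A + 1) * L ^ (B2 + B + 1) = A2 * A * L ^ (B2 + B + 1) + L ^ (B2 + B + 1) := by ring
  have h9 : 0 < L ^ (B2 + B + 1) := Nat.pow_pos hL
  omega

/-- The main theorem, induced copies. -/
theorem fri (d : ℕ) : ∃ δ : ℝ, 0 < δ ∧ ∃ C : ℝ, ∀ (V : Type) [Fintype V] (G : SimpleGraph V) (m : ℕ),
    1 ≤ m → C * (m : ℝ) ^ (2 - δ) ≤ Fintype.card V → C4F G → Alp G m → (Dg d).IsIndContained G := by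
  obtain ⟨A1, B1, h⟩ := coi d
  obtain ⟨δ, hδ, C, hC⟩ := Pool.Agent.C4j.num A1 B1
  refine ⟨δ, hδ, C, fun V _ G m hm hn hG ha => ?_⟩
  obtain ⟨L, h1, h2⟩ := hC (Fintype.card V) m hm (nle hG ha) hn
  exact h V G m L hG ha h1 h2

end Pool.Agent.C4k
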