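import Pool.Agent.C4j.Bas
import Pool.Agent.C4k.Defs

/-!
# Weak copies of `D_d` and their number
-/

set_option autoImplicit false

namespace Pool.Agent.C4k

open Finset Pool.Agent.C4j
open scoped Classical

noncomputable section

instance fintypeVt : (d : ℕ) → Fintype (Vt d)
  | 0 => inferInstanceAs (Fintype Unit)
  | d + 1 => by
      have := fintypeVt d
      exact inferInstanceAs (Fintype ((Bool × Vt d) ⊕ (Vt d × Vt d)))

variable {V : Type}

/-- the first copy -/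
def lf {d : ℕ} (φ : Vt (d + 1) → V) (x : Vt d) : V := φ (Sum.inl (false, x))

/-- the second copy -/
def rt {d : ℕ} (φ : Vt (d + 1) → V) (y : Vt d) : V := φ (Sum.inl (true, y))

/-- the midpoints -/
def md {d : ℕ} (φ : Vt (d + 1) → V) (x y : Vt d) : V := φ (Sum.inr (x, y))

/-- putting two copies and midpoints together -/
def mk {d : ℕ} (φ ψ : Vt d → V) (μ : Vt d → Vt d → V) : Vt (d + 1) → V
  | Sum.inl (false, x) => φ x
  | Sum.inl (true, y) => ψ y
  | Sum.inr (x, y) => μ x y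

theorem lf_mk {d : ℕ} (φ ψ : Vt d → V) (μ : Vt d → Vt d → V) : lf (mk φ ψ μ) = φ := rfl
theorem rt_mk {d : ℕ} (φ ψ : Vt d → V) (μ : Vt d → Vt d → V) : rt (mk φ ψ μ) = ψ := rfl
theorem md_mk {d : ℕ} (φ ψ : Vt d → V) (μ : Vt d → Vt d → V) : md (mk φ ψ μ) = μ := rfl

theorem ext {d : ℕ} {φ ψ : Vt (d + 1) → V} (h1 : ∀ x, lf φ x = lf ψ x) (h2 : ∀ y, rt φ y = rt ψ y)
    (h3 : ∀ x y, md φ x y = md ψ x y) : φ = ψ := by
  funext a
  rcases a with ⟨i, x⟩ | ⟨x, y⟩
  · cases i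
    · exact h1 x
    · exact h2 x
  · exact h3 x y

/-- `φ` is a weak copy of `D_d` in `G`: the midpoints are common neighbours of their ends, which are different
vertices; nothing else is required to be injective -/
def Wk (G : SimpleGraph V) : (d : ℕ) → (Vt d → V) → Prop
  | 0, _ => True
  | d + 1, φ => Wk G d (lf φ) ∧ Wk G d (rt φ) ∧
      ∀ x y, lf φ x ≠ rt φ y ∧ G.Adj (lf φ x) (md φ x y) ∧ G.Adj (md φ x y) (rt φ y)

-- BEGIN uni
/-- ROW uni. The midpoints are determined by their ends (`C4F`, as the ends are different). -/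
theorem uni {G : SimpleGraph V} (hG : C4F G) {d : ℕ} {φ ψ : Vt (d + 1) → V} (hφ : Wk G (d + 1) φ)
    (hψ : Wk G (d + 1) ψ) (h1 : lf φ = lf ψ) (h2 : rt φ = rt ψ) : φ = ψ := by
  refine ext (fun x => congrFun h1 x) (fun y => congrFun h2 y) fun x y => ?_
  obtain ⟨a1, a2, a3⟩ := hφ.2.2 x y
  obtain ⟨-, b2, b3⟩ := hψ.2.2 x y
  rw [← h1] at b2
  rw [← h2] at b3
  by_contra hne
  exact hG _ _ _ _ a1 hne a2 b2 a3.symm b3.symm
-- END uni

-- BEGIN hom
/-- ROW hom. Induction on `d`; unfold `Dg`, `SimpleGraph.fromRel_adj`, cases. -/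
theorem hom {G : SimpleGraph V} (d : ℕ) {φ : Vt d → V} (h : Wk G d φ) :
    ∀ a b, (Dg d).Adj a b → G.Adj (φ a) (φ b) := by
  induction d with
  | zero =>
    intro a b hab
    exact hab.elim
  | succ d ih =>
    obtain ⟨h1, h2, h3⟩ := h
    intro a b hab
    rw [Dg, SimpleGraph.fromRel_adj] at hab
    obtain ⟨-, hab | hab⟩ := hab
    · rcases a with ⟨_ | _, x⟩ | ⟨x, y⟩ <;> rcases b with ⟨_ | _, x'⟩ | ⟨x', y'⟩
      · exact ih h1 _ _ hab.2
      · exact absurd hab.1 (by decide)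
      · have e : x = x' := hab
        subst e
        exact (h3 x y').2.1
      · exact absurd hab.1 (by decide)
      · exact ih h2 _ _ hab.2
      · have e : x = y' := hab
        subst e
        exact (h3 x' x).2.2.symm
      · exact hab.elim
      · exact hab.elim
      · exact hab.elim
    · rcases b with ⟨_ | _, x⟩ | ⟨x, y⟩ <;> rcases a with ⟨_ | _, x'⟩ | ⟨x', y'⟩
      · exact (ih h1 _ _ hab.2).symm
      · exact absurd hab.1 (by decide)
      · have e : x = x' := hab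
        subst e
        exact (h3 x y').2.1.symm
      · exact absurd hab.1 (by decide)
      · exact (ih h2 _ _ hab.2).symm
      · have e : x = y' := hab
        subst e
        exact (h3 x' x).2.2
      · exact hab.elim
      · exact hab.elim
      · exact hab.elim
-- END hom

/-- the second neighbours of `z` in `S`, with the midpoints in `S` -/
def n3 (G : SimpleGraph V) (S : Finset V) (z : V) : Finset V :=
  S.filter fun u => u ≠ z ∧ ∃ w ∈ S, G.Adj u w ∧ G.Adj w z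

-- BEGIN nth
/-- ROW nth. As `Pool.Agent.C4j.n2c` (see its proof, row n2c of C4j/Bas.lean; there the midpoints lie in `S`). -/
theorem n3c {G : SimpleGraph V} (hG : C4F G) {S : Finset V} {D : ℕ}
    (hS : ∀ v ∈ S, D ≤ (nb G S v).card) {z : V} (hz : z ∈ S) :
    D * (D - 1) ≤ (n3 G S z).card := by
  have h1 : D * (D - 1) ≤ ∑ w ∈ nb G S z, ((nb G S w).erase z).card := by
    calc D * (D - 1) ≤ (nb G S z).card * (D - 1) := Nat.mul_le_mul_right _ (hS z hz)
      _ = ∑ _w ∈ nb G S z, (D - 1) := by rw [Finset.sum_const, smul_eq_mul]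
      _ ≤ ∑ w ∈ nb G S z, ((nb G S w).erase z).card := by
          refine Finset.sum_le_sum fun w hw => ?_
          have h2 := hS w (mem_nb.1 hw).1
          have h3 : (nb G S w).card - 1 ≤ ((nb G S w).erase z).card :=
            Finset.pred_card_le_card_erase
          omega
  have h2 : ((nb G S z).biUnion fun w => (nb G S w).erase z).card =
      ∑ w ∈ nb G S z, ((nb G S w).erase z).card := by
    refine Finset.card_biUnion fun w hw w' hw' hne => ?_
    refine Finset.disjoint_left.2 ?_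
    intro u hu hu'
    rw [Finset.mem_erase, mem_nb] at hu hu'
    exact hG u z w w' hu.1 hne hu.2.2.symm hu'.2.2.symm (mem_nb.1 hw).2 (mem_nb.1 hw').2
  rw [← h2] at h1
  refine h1.trans (Finset.card_le_card fun u hu => ?_)
  rw [Finset.mem_biUnion] at hu
  obtain ⟨w, hw, hu⟩ := hu
  rw [Finset.mem_erase, mem_nb] at hu
  exact Finset.mem_filter.2
    ⟨hu.2.1, hu.1, w, (mem_nb.1 hw).1, hu.2.2.symm, (mem_nb.1 hw).2.symm⟩
-- END nth

variable [Fintype V]

/-- the weak copies of `D_d` -/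
def wk (G : SimpleGraph V) (d : ℕ) : Finset (Vt d → V) := univ.filter fun φ => Wk G d φ

/-- the weak copies of `D_d` inside `U` -/
def wu (G : SimpleGraph V) (d : ℕ) (U : Finset V) : Finset (Vt d → V) :=
  univ.filter fun φ => Wk G d φ ∧ ∀ x, φ x ∈ U

theorem mem_wk {G : SimpleGraph V} {d : ℕ} {φ : Vt d → V} : φ ∈ wk G d ↔ Wk G d φ := by
  unfold wk; simp

theorem mem_wu {G : SimpleGraph V} {d : ℕ} {U : Finset V} {φ : Vt d → V} :
    φ ∈ wu G d U ↔ Wk G d φ ∧ ∀ x, φ x ∈ U := by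
  unfold wu; simp

-- BEGIN ubd
/-- ROW ubd. `φ ↦ (lf φ, rt φ)` is injective on `wk G (d + 1)` (`uni`) with values in `wk G d ×ˢ wk G d`; `2 ^ (d + 1) = 2 ^ d + 2 ^ d`. -/
theorem ubd {G : SimpleGraph V} (hG : C4F G) (d : ℕ) :
    (wk G d).card ≤ Fintype.card V ^ (2 ^ d) := by
  induction d with
  | zero =>
    rw [pow_zero, pow_one, ← Finset.card_univ]
    refine Finset.card_le_card_of_injOn (fun φ : Vt 0 → V => φ ()) (fun _ _ => Finset.mem_coe.2 (Finset.mem_univ _)) ?_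
    intro φ _ ψ _ h
    funext x
    exact h
  | succ d ih =>
    have h1 : (wk G (d + 1)).card ≤ (wk G d ×ˢ wk G d).card := by
      refine Finset.card_le_card_of_injOn (fun φ : Vt (d + 1) → V => (lf φ, rt φ)) ?_ ?_
      · intro φ hφ
        have h2 := mem_wk.1 (Finset.mem_coe.1 hφ)
        exact Finset.mem_coe.2 (Finset.mem_product.2 ⟨mem_wk.2 h2.1, mem_wk.2 h2.2.1⟩)
      · intro φ hφ ψ hψ h
        have h2 := mem_wk.1 (Finset.mem_coe.1 hφ)
        have h3 := mem_wk.1 (Finset.mem_coe.1 hψ)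
        exact uni hG h2 h3 (congrArg Prod.fst h) (congrArg Prod.snd h)
    rw [Finset.card_product] at h1
    refine h1.trans ((Nat.mul_le_mul ih ih).trans (le_of_eq ?_))
    rw [← pow_add, pow_succ 2 d, mul_two]
-- END ubd

-- BEGIN pai
/-- ROW pai. `φ ↦ (lf φ, rt φ)` is injective on `wk G (d + 1)` (`uni`); for every `lf φ` (at most `(wk G d).card`) the vertex
`rt φ y` is one of at most `q` vertices `v`, and for every `v` there are at most `M` possible `rt φ`. The same with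
left and right exchanged. (`Finset.card_le_card_of_injOn` into a `Finset.sigma`, or `card_le_mul_card_image`.) -/
theorem pai {G : SimpleGraph V} (hG : C4F G) {d M q : ℕ} (y : Vt d)
    (hM : ∀ v, ((wk G d).filter fun ψ => ψ y = v).card ≤ M) (Q : (Vt d → V) → Finset V)
    (hQ : ∀ ψ ∈ wk G d, (Q ψ).card ≤ q) :
    ((wk G (d + 1)).filter fun φ => rt φ y ∈ Q (lf φ)).card ≤ (wk G d).card * (q * M) ∧
    ((wk G (d + 1)).filter fun φ => lf φ y ∈ Q (rt φ)).card ≤ (wk G d).card * (q * M) := by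
  have key : ((wk G d).sigma fun ψ => (wk G d).filter fun χ => χ y ∈ Q ψ).card ≤
      (wk G d).card * (q * M) := by
    rw [Finset.card_sigma]
    have h1 : ∀ ψ ∈ wk G d, ((wk G d).filter fun χ => χ y ∈ Q ψ).card ≤ q * M := by
      intro ψ hψ
      have h2 : ((wk G d).filter fun χ => χ y ∈ Q ψ).card =
          ∑ v ∈ Q ψ, (((wk G d).filter fun χ => χ y ∈ Q ψ).filter fun χ => χ y = v).card :=
        Finset.card_eq_sum_card_fiberwise fun χ hχ =>
          (Finset.mem_filter.1 (Finset.mem_coe.1 hχ)).2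
      rw [h2]
      have h3 : ∀ v ∈ Q ψ, (((wk G d).filter fun χ => χ y ∈ Q ψ).filter fun χ => χ y = v).card ≤
          M := by
        intro v _
        refine (Finset.card_le_card ?_).trans (hM v)
        exact Finset.filter_subset_filter _ (Finset.filter_subset _ _)
      refine (Finset.sum_le_sum h3).trans ?_
      rw [Finset.sum_const, smul_eq_mul]
      exact Nat.mul_le_mul_right _ (hQ ψ hψ)
    refine (Finset.sum_le_sum h1).trans ?_
    rw [Finset.sum_const, smul_eq_mul]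
  constructor
  · refine le_trans ?_ key
    apply Finset.card_le_card_of_injOn fun φ => (⟨lf φ, rt φ⟩ : Σ _ : Vt d → V, Vt d → V)
    · intro φ hφ
      obtain ⟨h1, h2⟩ := Finset.mem_filter.1 (Finset.mem_coe.1 hφ)
      have h3 := mem_wk.1 h1
      rw [Finset.mem_coe, Finset.mem_sigma]
      exact ⟨mem_wk.2 h3.1, Finset.mem_filter.2 ⟨mem_wk.2 h3.2.1, h2⟩⟩
    · intro φ hφ φ' hφ' he
      have h1 := mem_wk.1 (Finset.mem_filter.1 (Finset.mem_coe.1 hφ)).1
      have h2 := mem_wk.1 (Finset.mem_filter.1 (Finset.mem_coe.1 hφ')).1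
      simp only [Sigma.mk.injEq, heq_eq_eq] at he
      exact uni hG h1 h2 he.1 he.2
  · refine le_trans ?_ key
    apply Finset.card_le_card_of_injOn fun φ => (⟨rt φ, lf φ⟩ : Σ _ : Vt d → V, Vt d → V)
    · intro φ hφ
      obtain ⟨h1, h2⟩ := Finset.mem_filter.1 (Finset.mem_coe.1 hφ)
      have h3 := mem_wk.1 h1
      rw [Finset.mem_coe, Finset.mem_sigma]
      exact ⟨mem_wk.2 h3.2.1, Finset.mem_filter.2 ⟨mem_wk.2 h3.1, h2⟩⟩
    · intro φ hφ φ' hφ' he
      have h1 := mem_wk.1 (Finset.mem_filter.1 (Finset.mem_coe.1 hφ)).1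
      have h2 := mem_wk.1 (Finset.mem_filter.1 (Finset.mem_coe.1 hφ')).1
      simp only [Sigma.mk.injEq, heq_eq_eq] at he
      exact uni hG h1 h2 he.2 he.1
-- END pai

-- BEGIN fbl
/-- ROW fbl. Copies with a prescribed vertex in the first or second copy: `(lf φ, rt φ)` injects into
`((wk G d).filter ..) ×ˢ wk G d`. -/
theorem fbl {G : SimpleGraph V} (hG : C4F G) {d : ℕ} (x : Vt d) (v : V) :
    ((wk G (d + 1)).filter fun φ => lf φ x = v).card ≤
      ((wk G d).filter fun ψ => ψ x = v).card * (wk G d).card ∧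
    ((wk G (d + 1)).filter fun φ => rt φ x = v).card ≤
      ((wk G d).filter fun ψ => ψ x = v).card * (wk G d).card := by
  constructor
  · rw [← Finset.card_product]
    refine Finset.card_le_card_of_injOn (fun φ => (lf φ, rt φ)) ?_ ?_
    · intro φ hφ
      rw [Finset.mem_coe, Finset.mem_filter, mem_wk] at hφ
      rw [Finset.mem_coe, Finset.mem_product, Finset.mem_filter, mem_wk, mem_wk]
      exact ⟨⟨hφ.1.1, hφ.2⟩, hφ.1.2.1⟩
    · intro φ hφ ψ hψ h
      rw [Finset.mem_coe, Finset.mem_filter, mem_wk] at hφ hψ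
      exact uni hG hφ.1 hψ.1 (congrArg Prod.fst h) (congrArg Prod.snd h)
  · rw [← Finset.card_product]
    refine Finset.card_le_card_of_injOn (fun φ => (rt φ, lf φ)) ?_ ?_
    · intro φ hφ
      rw [Finset.mem_coe, Finset.mem_filter, mem_wk] at hφ
      rw [Finset.mem_coe, Finset.mem_product, Finset.mem_filter, mem_wk, mem_wk]
      exact ⟨⟨hφ.1.2.1, hφ.2⟩, hφ.1.1⟩
    · intro φ hφ ψ hψ h
      rw [Finset.mem_coe, Finset.mem_filter, mem_wk] at hφ hψ
      exact uni hG hφ.1 hψ.1 (congrArg Prod.snd h) (congrArg Prod.fst h)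
-- END fbl

-- BEGIN fbm
/-- ROW fbm. A prescribed midpoint `v = md φ x y`: `lf φ x` and `rt φ y` are neighbours of `v`, at most `q` choices each
(`nb G univ v`), then at most `M` choices for each of `lf φ`, `rt φ` (`uni`). -/
theorem fbm {G : SimpleGraph V} (hG : C4F G) {d M q : ℕ} (x y : Vt d) (v : V)
    (hq : (nb G univ v).card ≤ q) (hM : ∀ z u, ((wk G d).filter fun ψ => ψ z = u).card ≤ M) :
    ((wk G (d + 1)).filter fun φ => md φ x y = v).card ≤ (q * M) * (q * M) := by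
  have key : ∀ z, ((wk G d).filter fun ψ => ψ z ∈ nb G univ v).card ≤ q * M := by
    intro z
    have hsub : ((wk G d).filter fun ψ => ψ z ∈ nb G univ v) ⊆
        (nb G univ v).biUnion fun u => (wk G d).filter fun ψ => ψ z = u := by
      intro ψ hψ
      rw [Finset.mem_filter] at hψ
      rw [Finset.mem_biUnion]
      exact ⟨ψ z, hψ.2, Finset.mem_filter.2 ⟨hψ.1, rfl⟩⟩
    refine (Finset.card_le_card hsub).trans ?_
    refine (Finset.card_biUnion_le_card_mul _ _ M fun u _ => hM z u).trans ?_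
    exact Nat.mul_le_mul_right M hq
  refine le_trans ?_ (Nat.mul_le_mul (key x) (key y))
  rw [← Finset.card_product]
  refine Finset.card_le_card_of_injOn (fun φ => (lf φ, rt φ)) ?_ ?_
  · intro φ hφ
    rw [Finset.mem_coe, Finset.mem_filter, mem_wk] at hφ
    rw [Finset.mem_coe, Finset.mem_product, Finset.mem_filter, Finset.mem_filter, mem_wk, mem_wk,
      mem_nb, mem_nb]
    obtain ⟨⟨h1, h2, h3⟩, h4⟩ := hφ
    obtain ⟨-, h5, h6⟩ := h3 x y
    rw [h4] at h5 h6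
    exact ⟨⟨h1, Finset.mem_univ _, h5.symm⟩, h2, Finset.mem_univ _, h6⟩
  · intro φ hφ ψ hψ h
    rw [Finset.mem_coe, Finset.mem_filter, mem_wk] at hφ hψ
    exact uni hG hφ.1 hψ.1 (congrArg Prod.fst h) (congrArg Prod.snd h)
-- END fbm

-- BEGIN fib
/-- ROW fib. Induction on `d`; `A = 1`, `B = 0` for `d = 0`. Step: for a vertex of a copy `fbl`, `ubd`; for a midpoint `fbm` with
`q = 2 * m` (`deg`) and `m ^ 2 ≤ L * card V`: with `M = sup` of the fibres (choose `M` with `M * card V ≤ A * L ^ B * card V ^ (2 ^ d)`, e.g. the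
maximum), `(2 m M) ^ 2 * n ≤ 4 L (M n) ^ 2`. New constants e.g. `A' = A + 4 * A ^ 2`, `B' = 2 * B + 1` (`1 ≤ L`). -/
theorem fib (d : ℕ) : ∃ A B : ℕ, ∀ (V : Type) [Fintype V] (G : SimpleGraph V) (m L : ℕ), C4F G →
    Alp G m → m ^ 2 ≤ L * Fintype.card V → ∀ (x : Vt d) (v : V),
      ((wk G d).filter fun ψ => ψ x = v).card * Fintype.card V ≤
        A * L ^ B * Fintype.card V ^ (2 ^ d) := by
  induction d with
  | zero =>
    refine ⟨1, 0, fun V _ G m L hG hm hL x v => ?_⟩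
    have h1 : ((wk G 0).filter fun ψ => ψ x = v).card ≤ 1 := by
      rw [Finset.card_le_one]
      intro a ha b hb
      rw [Finset.mem_filter] at ha hb
      funext z
      have hz : z = x := Subsingleton.elim (α := Unit) z x
      rw [hz, ha.2, hb.2]
    simpa using Nat.mul_le_mul_right (Fintype.card V) h1
  | succ d ih =>
    obtain ⟨A, B, ih⟩ := ih
    refine ⟨A + 4 * A ^ 2, 2 * B + 1, fun V _ G m L hG hm hL x v => ?_⟩
    have hn : 0 < Fintype.card V := Fintype.card_pos_iff.2 ⟨v⟩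
    have hm1 : 1 ≤ m := alp_pos hm
    have hL1 : 1 ≤ L := by
      rcases Nat.eq_zero_or_pos L with h | h
      · rw [h, zero_mul] at hL
        have h2 : 1 ^ 2 ≤ m ^ 2 := Nat.pow_le_pow_left hm1 2
        omega
      · exact h
    have ih' := ih V G m L hG hm hL
    have hub := ubd hG d
    generalize Fintype.card V = n at *
    have hf : ∀ z u, ((wk G d).filter fun ψ => ψ z = u).card ≤
        A * L ^ B * n ^ (2 ^ d) / n := fun z u => (Nat.le_div_iff_mul_le hn).2 (ih' z u)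
    have hMn : A * L ^ B * n ^ (2 ^ d) / n * n ≤ A * L ^ B * n ^ (2 ^ d) :=
      Nat.div_mul_le_self _ _
    have hpow : n ^ (2 ^ (d + 1)) = n ^ (2 ^ d) * n ^ (2 ^ d) := by
      rw [← pow_add, pow_succ, mul_two]
    have hLB : L ^ B ≤ L ^ (2 * B + 1) := Nat.pow_le_pow_right hL1 (by omega)
    have hcopy : ∀ z u, ((wk G d).filter fun ψ => ψ z = u).card * (wk G d).card * n ≤
        (A + 4 * A ^ 2) * L ^ (2 * B + 1) * n ^ (2 ^ (d + 1)) := by
      intro z u
      calc ((wk G d).filter fun ψ => ψ z = u).card * (wk G d).card * n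
          = (((wk G d).filter fun ψ => ψ z = u).card * n) * (wk G d).card := by ring
        _ ≤ (A * L ^ B * n ^ (2 ^ d)) * n ^ (2 ^ d) := Nat.mul_le_mul (ih' z u) hub
        _ = A * L ^ B * n ^ (2 ^ (d + 1)) := by rw [hpow]; ring
        _ ≤ (A + 4 * A ^ 2) * L ^ (2 * B + 1) * n ^ (2 ^ (d + 1)) :=
          Nat.mul_le_mul_right _ (Nat.mul_le_mul (Nat.le_add_right _ _) hLB)
    rcases x with ⟨i, x⟩ | ⟨x, y⟩
    · cases i
      · exact le_trans (Nat.mul_le_mul_right n ((fbl hG x v).1)) (hcopy x v)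
      · exact le_trans (Nat.mul_le_mul_right n ((fbl hG x v).2)) (hcopy x v)
    · have h1 := fbm hG x y v (deg hG hm univ v).le hf
      generalize A * L ^ B * n ^ (2 ^ d) / n = M at *
      calc ((wk G (d + 1)).filter fun ψ => ψ (Sum.inr (x, y)) = v).card * n
          ≤ (2 * m * M) * (2 * m * M) * n := Nat.mul_le_mul_right n h1
        _ = 4 * (m ^ 2) * (M ^ 2 * n) := by ring
        _ ≤ 4 * (L * n) * (M ^ 2 * n) :=
          Nat.mul_le_mul_right _ (Nat.mul_le_mul_left 4 hL)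
        _ = 4 * L * (M * n) ^ 2 := by ring
        _ ≤ 4 * L * (A * L ^ B * n ^ (2 ^ d)) ^ 2 :=
          Nat.mul_le_mul_left _ (Nat.pow_le_pow_left hMn 2)
        _ = 4 * A ^ 2 * L ^ (2 * B + 1) * n ^ (2 ^ (d + 1)) := by rw [hpow]; ring
        _ ≤ (A + 4 * A ^ 2) * L ^ (2 * B + 1) * n ^ (2 ^ (d + 1)) :=
          Nat.mul_le_mul_right _ (Nat.mul_le_mul_right _ (Nat.le_add_left _ _))
-- END fib

-- BEGIN nin
/-- ROW nin. Let `a ≠ b` with `φ a = φ b`. Both in the same copy: first or second alternative. In different copies: excluded by `Wk`. A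
midpoint and a vertex of a copy: `md φ x y = lf φ x'` gives `G.Adj (lf φ x') (rt φ y)`, `md φ x y = rt φ y'` gives `G.Adj (lf φ x) (rt φ y')`.
Two midpoints `md φ x y = md φ x' y' =: v`: if `x ≠ x'` the fourth alternative (`lf φ` injective), otherwise `y ≠ y'`, the fifth. -/
theorem nin {G : SimpleGraph V} {d : ℕ} {φ : Vt (d + 1) → V} (h : Wk G (d + 1) φ)
    (hn : ¬ Function.Injective φ) :
    ¬ Function.Injective (lf φ) ∨ ¬ Function.Injective (rt φ) ∨
      (∃ x y, G.Adj (lf φ x) (rt φ y)) ∨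
      (∃ x x' y, lf φ x ≠ lf φ x' ∧ ∃ v, G.Adj v (lf φ x) ∧ G.Adj v (lf φ x') ∧ G.Adj v (rt φ y)) ∨
      (∃ y y' x, rt φ y ≠ rt φ y' ∧ ∃ v, G.Adj v (rt φ y) ∧ G.Adj v (rt φ y') ∧ G.Adj v (lf φ x)) := by
  obtain ⟨-, -, hm⟩ := h
  by_cases i1 : Function.Injective (lf φ)
  swap
  · exact Or.inl i1
  by_cases i2 : Function.Injective (rt φ)
  swap
  · exact Or.inr (Or.inl i2)
  refine Or.inr (Or.inr ?_)
  by_contra hcon
  have hA : ∀ x y, ¬ G.Adj (lf φ x) (rt φ y) := fun x y hx => hcon (Or.inl ⟨x, y, hx⟩)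
  have hl : ∀ x x' y', lf φ x ≠ md φ x' y' := by
    intro x x' y' he
    have h2 := (hm x' y').2.2
    rw [← he] at h2
    exact hA x y' h2
  have hr : ∀ y x' y', rt φ y ≠ md φ x' y' := by
    intro y x' y' he
    have h2 := (hm x' y').2.1
    rw [← he] at h2
    exact hA x' y h2
  apply hn
  intro a b hab
  rcases a with ⟨i, x⟩ | ⟨x, y⟩ <;> rcases b with ⟨j, x'⟩ | ⟨x', y'⟩
  · cases i <;> cases j
    · have h2 : lf φ x = lf φ x' := hab
      rw [i1 h2]
    · exact absurd (show lf φ x = rt φ x' from hab) (hm x x').1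
    · exact absurd (show lf φ x' = rt φ x from hab.symm) (hm x' x).1
    · have h2 : rt φ x = rt φ x' := hab
      rw [i2 h2]
  · cases i
    · exact absurd (show lf φ x = md φ x' y' from hab) (hl x x' y')
    · exact absurd (show rt φ x = md φ x' y' from hab) (hr x x' y')
  · cases j
    · exact absurd (show lf φ x' = md φ x y from hab.symm) (hl x' x y)
    · exact absurd (show rt φ x' = md φ x y from hab.symm) (hr x' x y)
  · have h2 : md φ x y = md φ x' y' := hab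
    by_cases hx : x = x'
    · by_cases hy : y = y'
      · rw [hx, hy]
      · exfalso
        refine hcon (Or.inr (Or.inr ⟨y, y', x, fun e => hy (i2 e), md φ x y, (hm x y).2.2, ?_,
          (hm x y).2.1.symm⟩))
        rw [h2]
        exact (hm x' y').2.2
    · exfalso
      refine hcon (Or.inr (Or.inl ⟨x, x', y, fun e => hx (i1 e), md φ x y, (hm x y).2.1.symm, ?_,
        (hm x y).2.2⟩))
      rw [h2]
      exact (hm x' y').2.1.symm
-- END nin

/-- the weak copies which are not injective -/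
def ni (G : SimpleGraph V) (d : ℕ) : Finset (Vt d → V) := (wk G d).filter fun φ => ¬ Function.Injective φ

-- BEGIN nis
private theorem nis_q {G : SimpleGraph V} {m : ℕ} (hG : C4F G) (hm : Alp G m) (a b : V) :
    (univ.filter fun u => a ≠ b ∧ ∃ v, G.Adj v a ∧ G.Adj v b ∧ G.Adj v u).card ≤ 2 * m := by
  by_cases h : a ≠ b ∧ ∃ v, G.Adj v a ∧ G.Adj v b
  · obtain ⟨hab, v, h1, h2⟩ := h
    refine le_trans (Finset.card_le_card ?_) (deg hG hm univ v).le
    intro u hu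
    rw [Finset.mem_filter] at hu
    obtain ⟨_, _, w, h3, h4, h5⟩ := hu
    rw [mem_nb]
    refine ⟨Finset.mem_univ _, ?_⟩
    by_cases hwv : w = v
    · rw [← hwv]
      exact h5
    · exact (hG w v a b hwv hab h3 h4 h1 h2).elim
  · rw [Finset.card_eq_zero.2 (Finset.filter_eq_empty_iff.2 ?_)]
    · exact Nat.zero_le _
    · rintro u _ ⟨h1, v, h2, h3, _⟩
      exact h ⟨h1, v, h2, h3⟩

private theorem nis_inj {G : SimpleGraph V} (hG : C4F G) {d : ℕ} {P : Finset (Vt (d + 1) → V)}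
    {A B : Finset (Vt d → V)} (hP : ∀ φ ∈ P, Wk G (d + 1) φ ∧ lf φ ∈ A ∧ rt φ ∈ B) :
    P.card ≤ A.card * B.card := by
  rw [← Finset.card_product]
  refine Finset.card_le_card_of_injOn (fun φ => (lf φ, rt φ)) ?_ ?_
  · intro φ hφ
    exact Finset.mem_coe.2 (Finset.mem_product.2 (hP φ hφ).2)
  · intro φ hφ ψ hψ h
    have h1 := Prod.mk.inj h
    exact uni hG (hP φ hφ).1 (hP ψ hψ).1 h1.1 h1.2

private theorem nis_num {c w M m n x1 x2 x3 x4 x5 k : ℕ} (h : n ≤ x1 + x2 + x3 + x4 + x5)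
    (h1 : x1 ≤ k * w) (h2 : x2 ≤ w * k) (h3 : x3 ≤ c ^ 2 * (w * (2 * m * M)))
    (h4 : x4 ≤ c ^ 3 * (w * (2 * m * M))) (h5 : x5 ≤ c ^ 3 * (w * (2 * m * M))) :
    n ≤ 2 * (k * w) + 3 * c ^ 3 * (w * (2 * m * M)) := by
  have h6 : c ^ 2 ≤ c ^ 3 := by
    rcases Nat.eq_zero_or_pos c with h | h
    · rw [h]
      exact le_rfl
    · exact Nat.pow_le_pow_right h (by norm_num)
  have h7 := Nat.mul_le_mul_right (w * (2 * m * M)) h6
  have h8 : w * k = k * w := Nat.mul_comm _ _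
  have h9 : 3 * c ^ 3 * (w * (2 * m * M)) = 3 * (c ^ 3 * (w * (2 * m * M))) := by ring
  omega

/-- ROW nis. `nin` and a union bound; the first two alternatives: `(lf φ, rt φ)` lies in `ni G d ×ˢ wk G d` resp.
`wk G d ×ˢ ni G d`; the other three by `pai` with `q = 2 * m`: `Q ψ = nb G univ (ψ x)`; `Q ψ = nb G univ v` for the (at most one, `C4F`)
common neighbour `v` of `ψ x ≠ ψ x'` (write `Q ψ = univ.filter fun u => ψ x ≠ ψ x' ∧ ∃ v, ..`). There are at most
`3 * (card (Vt d)) ^ 3` cases. -/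
theorem nis {G : SimpleGraph V} {m : ℕ} (hG : C4F G) (hm : Alp G m) {d M : ℕ}
    (hM : ∀ x v, ((wk G d).filter fun ψ => ψ x = v).card ≤ M) :
    (ni G (d + 1)).card ≤ 2 * ((ni G d).card * (wk G d).card) +
      3 * Fintype.card (Vt d) ^ 3 * ((wk G d).card * (2 * m * M)) := by
  obtain ⟨T, hT⟩ : ∃ T : V → V → Finset V, ∀ a b, T a b =
    univ.filter fun u => a ≠ b ∧ ∃ v, G.Adj v a ∧ G.Adj v b ∧ G.Adj v u := ⟨_, fun a b => rfl⟩
  have hT2 : ∀ a b, (T a b).card ≤ 2 * m := fun a b => by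
    rw [hT]
    exact nis_q hG hm a b
  have hw : ∀ φ ∈ wk G (d + 1), Wk G (d + 1) φ ∧ lf φ ∈ wk G d ∧ rt φ ∈ wk G d := fun φ hφ => by
    have h := mem_wk.1 hφ
    exact ⟨h, mem_wk.2 h.1, mem_wk.2 h.2.1⟩
  have h1 : ((wk G (d + 1)).filter fun φ => ¬ Function.Injective (lf φ)).card ≤
      (ni G d).card * (wk G d).card := by
    refine nis_inj hG fun φ hφ => ?_
    rw [Finset.mem_filter] at hφ
    obtain ⟨a, b, c⟩ := hw φ hφ.1
    exact ⟨a, Finset.mem_filter.2 ⟨b, hφ.2⟩, c⟩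
  have h2 : ((wk G (d + 1)).filter fun φ => ¬ Function.Injective (rt φ)).card ≤
      (wk G d).card * (ni G d).card := by
    refine nis_inj hG fun φ hφ => ?_
    rw [Finset.mem_filter] at hφ
    obtain ⟨a, b, c⟩ := hw φ hφ.1
    exact ⟨a, b, Finset.mem_filter.2 ⟨c, hφ.2⟩⟩
  have h3 : ((univ : Finset (Vt d × Vt d)).biUnion fun p =>
      (wk G (d + 1)).filter fun φ => rt φ p.2 ∈ nb G univ (lf φ p.1)).card ≤
      Fintype.card (Vt d) ^ 2 * ((wk G d).card * (2 * m * M)) := by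
    have h := Finset.card_biUnion_le_card_mul (univ : Finset (Vt d × Vt d)) (fun p =>
      (wk G (d + 1)).filter fun φ => rt φ p.2 ∈ nb G univ (lf φ p.1))
      ((wk G d).card * (2 * m * M)) (fun p _ => (pai hG p.2 (hM p.2)
        (fun ψ => nb G univ (ψ p.1)) (fun ψ _ => (deg hG hm univ (ψ p.1)).le)).1)
    rwa [Finset.card_univ, Fintype.card_prod, ← sq] at h
  have h4 : ((univ : Finset (Vt d × Vt d × Vt d)).biUnion fun p =>
      (wk G (d + 1)).filter fun φ => rt φ p.2.2 ∈ T (lf φ p.1) (lf φ p.2.1)).card ≤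
      Fintype.card (Vt d) ^ 3 * ((wk G d).card * (2 * m * M)) := by
    have h := Finset.card_biUnion_le_card_mul (univ : Finset (Vt d × Vt d × Vt d)) (fun p =>
      (wk G (d + 1)).filter fun φ => rt φ p.2.2 ∈ T (lf φ p.1) (lf φ p.2.1))
      ((wk G d).card * (2 * m * M)) (fun p _ => (pai hG p.2.2 (hM p.2.2)
        (fun ψ => T (ψ p.1) (ψ p.2.1)) (fun ψ _ => hT2 _ _)).1)
    rw [Finset.card_univ, Fintype.card_prod, Fintype.card_prod] at h
    have e : Fintype.card (Vt d) * (Fintype.card (Vt d) * Fintype.card (Vt d)) =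
      Fintype.card (Vt d) ^ 3 := by ring
    rwa [e] at h
  have h5 : ((univ : Finset (Vt d × Vt d × Vt d)).biUnion fun p =>
      (wk G (d + 1)).filter fun φ => lf φ p.2.2 ∈ T (rt φ p.1) (rt φ p.2.1)).card ≤
      Fintype.card (Vt d) ^ 3 * ((wk G d).card * (2 * m * M)) := by
    have h := Finset.card_biUnion_le_card_mul (univ : Finset (Vt d × Vt d × Vt d)) (fun p =>
      (wk G (d + 1)).filter fun φ => lf φ p.2.2 ∈ T (rt φ p.1) (rt φ p.2.1))
      ((wk G d).card * (2 * m * M)) (fun p _ => (pai hG p.2.2 (hM p.2.2)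
        (fun ψ => T (ψ p.1) (ψ p.2.1)) (fun ψ _ => hT2 _ _)).2)
    rw [Finset.card_univ, Fintype.card_prod, Fintype.card_prod] at h
    have e : Fintype.card (Vt d) * (Fintype.card (Vt d) * Fintype.card (Vt d)) =
      Fintype.card (Vt d) ^ 3 := by ring
    rwa [e] at h
  refine nis_num (le_trans (Finset.card_le_card (fun φ hφ => ?_))
    ((Finset.card_union_le _ _).trans (Nat.add_le_add_right ((Finset.card_union_le _ _).trans
      (Nat.add_le_add_right ((Finset.card_union_le _ _).trans (Nat.add_le_add_right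
        (Finset.card_union_le _ _) _)) _)) _))) h1 h2 h3 h4 h5
  unfold ni at hφ
  obtain ⟨hφ, hn⟩ := Finset.mem_filter.1 hφ
  simp only [Finset.mem_union, Finset.mem_biUnion, Finset.mem_univ, true_and, Finset.mem_filter]
  rcases nin (hw φ hφ).1 hn with h | h | ⟨x, y, h⟩ | ⟨x, x', y, hx, v, e1, e2, e3⟩ |
    ⟨y, y', x, hy, v, e1, e2, e3⟩
  · exact Or.inl (Or.inl (Or.inl (Or.inl ⟨hφ, h⟩)))
  · exact Or.inl (Or.inl (Or.inl (Or.inr ⟨hφ, h⟩)))
  · exact Or.inl (Or.inl (Or.inr ⟨(x, y), hφ, mem_nb.2 ⟨Finset.mem_univ _, h⟩⟩))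
  · refine Or.inl (Or.inr ⟨(x, x', y), hφ, ?_⟩)
    rw [hT]
    exact Finset.mem_filter.2 ⟨Finset.mem_univ _, hx, v, e1, e2, e3⟩
  · refine Or.inr ⟨(y, y', x), hφ, ?_⟩
    rw [hT]
    exact Finset.mem_filter.2 ⟨Finset.mem_univ _, hy, v, e1, e2, e3⟩
-- END nis

-- BEGIN nij
/-- ROW nij. Induction on `d` (`d = 0`: `Unit`, none). Step: `nis` with `M` = the maximum of the fibres, `fib`, `ubd`:
`n * ni (d + 1) ≤ 2 * (n * ni d) * n ^ N + 3 c ^ 3 * n ^ N * 2 m * (M n)`; constants `2 * A + 6 * c ^ 3 * A'`, `B + B'` (`1 ≤ L`). -/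
theorem nij (d : ℕ) : ∃ A B : ℕ, ∀ (V : Type) [Fintype V] (G : SimpleGraph V) (m L : ℕ), C4F G →
    Alp G m → m ^ 2 ≤ L * Fintype.card V →
      (ni G d).card * Fintype.card V ≤ A * L ^ B * m * Fintype.card V ^ (2 ^ d) := by
  induction d with
  | zero =>
    refine ⟨0, 0, fun V _ G m L hG hm hmL => ?_⟩
    have h0 : ni G 0 = ∅ := by
      unfold ni
      rw [Finset.filter_eq_empty_iff]
      intro φ _ h
      exact h fun a b _ => Subsingleton.elim (α := Unit) a b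
    rw [h0, Finset.card_empty, zero_mul]
    exact Nat.zero_le _
  | succ d ih =>
    obtain ⟨A, B, hA⟩ := ih
    obtain ⟨A', B', hA'⟩ := fib d
    refine ⟨2 * A + 6 * Fintype.card (Vt d) ^ 3 * A', B + B', fun V _ G m L hG hm hmL => ?_⟩
    have hm1 : 1 ≤ m := alp_pos hm
    have hm2 : 1 ≤ m ^ 2 := Nat.one_le_pow _ _ hm1
    have hL : 1 ≤ L := by
      rcases Nat.eq_zero_or_pos L with h | h
      · rw [h, zero_mul] at hmL; omega
      · exact h
    have hn1 : 0 < Fintype.card V := by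
      rcases Nat.eq_zero_or_pos (Fintype.card V) with h | h
      · rw [h, mul_zero] at hmL; omega
      · exact h
    obtain ⟨n, hn⟩ : ∃ n, n = Fintype.card V := ⟨_, rfl⟩
    obtain ⟨N, hN⟩ : ∃ N, N = 2 ^ d := ⟨_, rfl⟩
    obtain ⟨c, hc⟩ : ∃ c, c = Fintype.card (Vt d) := ⟨_, rfl⟩
    obtain ⟨M, hM⟩ : ∃ M, M = A' * L ^ B' * n ^ N / n := ⟨_, rfl⟩
    have hMf : ∀ x v, ((wk G d).filter fun ψ => ψ x = v).card ≤ M := by
      intro x v
      rw [hM, Nat.le_div_iff_mul_le (by omega), hn, hN]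
      exact hA' V G m L hG hm hmL x v
    have hMn : M * n ≤ A' * L ^ B' * n ^ N := by rw [hM]; exact Nat.div_mul_le_self _ _
    have h1 := nis hG hm hMf
    have h2 := hA V G m L hG hm hmL
    have h3 := ubd hG d
    rw [← hn, ← hN] at h2 h3
    rw [← hc] at h1
    have h2N : 2 ^ (d + 1) = N + N := by rw [hN]; ring
    rw [← hn, ← hc, h2N]
    have e1 : L ^ B ≤ L ^ (B + B') := Nat.pow_le_pow_right hL (by omega)
    have e2 : L ^ B' ≤ L ^ (B + B') := Nat.pow_le_pow_right hL (by omega)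
    calc (ni G (d + 1)).card * n
        ≤ (2 * ((ni G d).card * (wk G d).card) + 3 * c ^ 3 * ((wk G d).card * (2 * m * M))) * n :=
          Nat.mul_le_mul_right n h1
      _ = 2 * ((ni G d).card * n) * (wk G d).card +
          3 * c ^ 3 * (wk G d).card * (2 * m) * (M * n) := by ring
      _ ≤ 2 * (A * L ^ B * m * n ^ N) * n ^ N +
          3 * c ^ 3 * n ^ N * (2 * m) * (A' * L ^ B' * n ^ N) := by gcongr
      _ ≤ 2 * (A * L ^ (B + B') * m * n ^ N) * n ^ N +
          3 * c ^ 3 * n ^ N * (2 * m) * (A' * L ^ (B + B') * n ^ N) := by gcongr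
      _ = (2 * A + 6 * c ^ 3 * A') * L ^ (B + B') * m * n ^ (N + N) := by
          rw [pow_add n N N]; ring
-- END nij

-- BEGIN avg
/-- ROW avg. With `Φ' = Φ.filter (n ≤ 2 c f)`: the other ones contribute at most `n * M` to `2 c ∑ f`, so
`M * n ≤ 2 c ∑_{Φ'} f ≤ 2 c n * Φ'.card`. -/
theorem avg {ι : Type} (Φ : Finset ι) (f : ι → ℕ) (n M c : ℕ) (hn : 0 < n) (h1 : Φ.card ≤ M)
    (h2 : ∀ φ ∈ Φ, f φ ≤ n) (h3 : M * n ≤ c * ∑ φ ∈ Φ, f φ) :
    M ≤ 2 * c * (Φ.filter fun φ => n ≤ 2 * c * f φ).card := by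
  have hsplit := Finset.sum_filter_add_sum_filter_not Φ (fun φ => n ≤ 2 * c * f φ) f
  have hbad : 2 * c * ∑ φ ∈ Φ.filter (fun φ => ¬ n ≤ 2 * c * f φ), f φ ≤ M * n := by
    rw [Finset.mul_sum]
    calc ∑ φ ∈ Φ.filter (fun φ => ¬ n ≤ 2 * c * f φ), 2 * c * f φ
        ≤ ∑ φ ∈ Φ.filter (fun φ => ¬ n ≤ 2 * c * f φ), n := by
          apply Finset.sum_le_sum
          intro φ hφ
          have := (Finset.mem_filter.1 hφ).2
          omega
      _ = (Φ.filter (fun φ => ¬ n ≤ 2 * c * f φ)).card * n := by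
          rw [Finset.sum_const, smul_eq_mul]
      _ ≤ M * n := Nat.mul_le_mul_right n ((Finset.card_filter_le _ _).trans h1)
  have hgood : ∑ φ ∈ Φ.filter (fun φ => n ≤ 2 * c * f φ), f φ ≤
      (Φ.filter fun φ => n ≤ 2 * c * f φ).card * n := by
    calc ∑ φ ∈ Φ.filter (fun φ => n ≤ 2 * c * f φ), f φ
        ≤ ∑ φ ∈ Φ.filter (fun φ => n ≤ 2 * c * f φ), n :=
          Finset.sum_le_sum fun φ hφ => h2 φ (Finset.mem_of_mem_filter φ hφ)
      _ = (Φ.filter fun φ => n ≤ 2 * c * f φ).card * n := by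
          rw [Finset.sum_const, smul_eq_mul]
  have h4 : M * n ≤ 2 * c * ((Φ.filter fun φ => n ≤ 2 * c * f φ).card * n) := by
    have h5 : 2 * (M * n) ≤ 2 * c * ∑ φ ∈ Φ, f φ := by
      calc 2 * (M * n) ≤ 2 * (c * ∑ φ ∈ Φ, f φ) := Nat.mul_le_mul_left 2 h3
        _ = 2 * c * ∑ φ ∈ Φ, f φ := by ring
    rw [← hsplit, Nat.mul_add] at h5
    have h6 := Nat.mul_le_mul_left (2 * c) hgood
    omega
  have h7 : n * M ≤ n * (2 * c * (Φ.filter fun φ => n ≤ 2 * c * f φ).card) := by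
    calc n * M = M * n := Nat.mul_comm _ _
      _ ≤ 2 * c * ((Φ.filter fun φ => n ≤ 2 * c * f φ).card * n) := h4
      _ = n * (2 * c * (Φ.filter fun φ => n ≤ 2 * c * f φ).card) := by ring
  exact Nat.le_of_mul_le_mul_left h7 hn
-- END avg

/-- the `y` in `S` to which the copy `φ` is joined -/
def Yf (G : SimpleGraph V) {d : ℕ} (S : Finset V) (φ : Vt d → V) : Finset V :=
  S.filter fun y => ∀ x, φ x ∈ n3 G S y

-- BEGIN dcs
/-- ROW dcs. Double counting of the pairs (`φ`, `y`), `y ∈ S`, `φ ∈ wu G d (n3 G S y)` (`Finset.sum_comm'` or `sum_card_bipartiteAbove_eq_..`). -/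
theorem dcs (G : SimpleGraph V) (d : ℕ) (S : Finset V) :
    ∑ y ∈ S, (wu G d (n3 G S y)).card = ∑ φ ∈ wk G d, (Yf G S φ).card := by
  have h1 : ∀ y ∈ S, (wu G d (n3 G S y)).card =
      ∑ φ ∈ wk G d, if (∀ x, φ x ∈ n3 G S y) then 1 else 0 := by
    intro y _
    rw [← Finset.card_filter]
    congr 1
    ext φ
    rw [Finset.mem_filter, mem_wk, mem_wu]
  have h2 : ∀ φ ∈ wk G d, (Yf G S φ).card =
      ∑ y ∈ S, if (∀ x, φ x ∈ n3 G S y) then 1 else 0 := by
    intro φ _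
    rw [← Finset.card_filter]
    rfl
  rw [Finset.sum_congr rfl h1, Finset.sum_congr rfl h2, Finset.sum_comm]
-- END dcs

-- BEGIN stp
/-- ROW stp. For `φ ∈ Q`, `ψ ∈ wu G d (Yf G S φ)` choose midpoints `μ x y ∈ S` (`ψ y ∈ Yf G S φ`, so `φ x ∈ n3 G S (ψ y)`);
`mk φ ψ μ ∈ wu G (d + 1) S`, and `(φ, ψ)` are recovered by `lf`, `rt` (`Finset.card_le_card_of_injOn` on a `Finset.sigma`). -/
theorem stp {G : SimpleGraph V} {d q : ℕ} {S : Finset V} {Q : Finset (Vt d → V)}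
    (hQ : ∀ φ ∈ Q, Wk G d φ ∧ ∀ x, φ x ∈ S) (h : ∀ φ ∈ Q, q ≤ (wu G d (Yf G S φ)).card) :
    Q.card * q ≤ (wu G (d + 1) S).card := by
  have h1 : Q.card * q ≤ (Q.sigma fun φ => wu G d (Yf G S φ)).card := by
    rw [Finset.card_sigma]
    have h2 := Finset.sum_le_sum h
    rw [Finset.sum_const, smul_eq_mul] at h2
    exact h2
  refine h1.trans ?_
  let F : (Σ _ : Vt d → V, Vt d → V) → (Vt (d + 1) → V) := fun p => mk p.1 p.2 fun x y =>
    if h : ∃ w ∈ S, G.Adj (p.1 x) w ∧ G.Adj w (p.2 y) then h.choose else p.1 x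
  apply Finset.card_le_card_of_injOn F
  · rintro ⟨φ, ψ⟩ hp
    rw [Finset.mem_coe, Finset.mem_sigma] at hp
    obtain ⟨hφ, hψ⟩ := hp
    obtain ⟨hψ1, hψ2⟩ := mem_wu.1 hψ
    obtain ⟨hφ1, hφ2⟩ := hQ φ hφ
    have hY : ∀ y, ψ y ∈ S ∧ ∀ x, φ x ∈ n3 G S (ψ y) := fun y => Finset.mem_filter.1 (hψ2 y)
    have hN : ∀ x y, φ x ≠ ψ y ∧ ∃ w ∈ S, G.Adj (φ x) w ∧ G.Adj w (ψ y) := fun x y =>
      (Finset.mem_filter.1 ((hY y).2 x)).2
    have hmd : ∀ x y, md (F ⟨φ, ψ⟩) x y = (hN x y).2.choose := fun x y => dif_pos (hN x y).2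
    have hsp : ∀ x y, md (F ⟨φ, ψ⟩) x y ∈ S ∧ G.Adj (φ x) (md (F ⟨φ, ψ⟩) x y) ∧
        G.Adj (md (F ⟨φ, ψ⟩) x y) (ψ y) := by
      intro x y
      rw [hmd]
      exact (hN x y).2.choose_spec
    rw [Finset.mem_coe, mem_wu]
    refine ⟨⟨hφ1, hψ1, fun x y => ⟨(hN x y).1, (hsp x y).2⟩⟩, ?_⟩
    rintro (⟨i, x⟩ | ⟨x, y⟩)
    · cases i
      · exact hφ2 x
      · exact (hY x).1
    · exact (hsp x y).1
  · rintro ⟨φ, ψ⟩ - ⟨φ', ψ'⟩ - he
    have h2 : lf (F ⟨φ, ψ⟩) = lf (F ⟨φ', ψ'⟩) := by rw [he]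
    have h3 : rt (F ⟨φ, ψ⟩) = rt (F ⟨φ', ψ'⟩) := by rw [he]
    have h4 : φ = φ' := h2
    have h5 : ψ = ψ' := h3
    rw [h4, h5]
-- END stp

-- BEGIN num
/-- ROW num. As `one_num` in C4j/Bas.lean (row one), first half: `D1 = m / (4 * P)`. -/
theorem num {P m n u : ℕ} (hP : 1 ≤ P) (hn : n ≤ 2 * m ^ 2) (hm : m ^ 2 ≤ P * u) (h1 : 8 * P ≤ m) :
    ∃ D : ℕ, 2 * (D * m) ≤ u ∧ n ≤ 256 * P ^ 2 * (D * (D - 1)) := by
  obtain ⟨D1, hD1⟩ : ∃ D1, D1 = m / (4 * P) := ⟨_, rfl⟩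
  have a1 : D1 * (4 * P) ≤ m := by rw [hD1]; exact Nat.div_mul_le_self _ _
  have a2 : 2 ≤ D1 := by
    rw [hD1, Nat.le_div_iff_mul_le (by omega)]; omega
  have a3 : m ≤ 2 * (4 * P) * D1 := by
    have h := Nat.lt_mul_div_succ m (show 0 < 4 * P by omega)
    rw [← hD1] at h
    nlinarith
  obtain ⟨E, hE⟩ : ∃ E, D1 = E + 1 := ⟨D1 - 1, by omega⟩
  have hDD : D1 ^ 2 ≤ 2 * (D1 * (D1 - 1)) := by
    rw [hE, Nat.add_sub_cancel]
    have : 1 ≤ E := by omega
    nlinarith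
  have hmD : m ^ 2 ≤ 64 * P ^ 2 * D1 ^ 2 := by
    calc m ^ 2 ≤ (2 * (4 * P) * D1) ^ 2 := Nat.pow_le_pow_left a3 2
      _ = 64 * P ^ 2 * D1 ^ 2 := by ring
  refine ⟨D1, ?_, ?_⟩
  · have h4 : P * (4 * (D1 * m)) ≤ P * u := by
      calc P * (4 * (D1 * m)) = D1 * (4 * P) * m := by ring
        _ ≤ m * m := Nat.mul_le_mul_right m a1
        _ = m ^ 2 := by ring
        _ ≤ P * u := hm
    have h5 := Nat.le_of_mul_le_mul_left h4 (by omega)
    omega
  · calc n ≤ 2 * m ^ 2 := hn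
      _ ≤ 2 * (64 * P ^ 2 * D1 ^ 2) := Nat.mul_le_mul_left 2 hmD
      _ ≤ 2 * (64 * P ^ 2 * (2 * (D1 * (D1 - 1)))) :=
        Nat.mul_le_mul_left 2 (Nat.mul_le_mul_left _ hDD)
      _ = 256 * P ^ 2 * (D1 * (D1 - 1)) := by ring
-- END num

-- BEGIN low
private theorem low_zero (V : Type) [Fintype V] (G : SimpleGraph V) (U : Finset V) :
    U.card ≤ (wu G 0 U).card := by
  refine Finset.card_le_card_of_injOn (fun u => fun _ => u) ?_ ?_
  · intro u hu
    rw [Finset.mem_coe, mem_wu]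
    exact ⟨trivial, fun _ => hu⟩
  · intro u _ u' _ h
    exact congrFun h ()

private theorem low_mono {G : SimpleGraph V} {d : ℕ} {S U : Finset V} (h : S ⊆ U) :
    (wu G d S).card ≤ (wu G d U).card :=
  Finset.card_le_card fun φ hφ => by
    rw [mem_wu] at hφ ⊢
    exact ⟨hφ.1, fun x => h (hφ.2 x)⟩

private theorem low_pow {L A a B b : ℕ} (hL : 1 ≤ L) (ha : A ≤ a) (hb : B ≤ b) :
    A * L ^ B ≤ a * L ^ b :=
  Nat.mul_le_mul ha (Nat.pow_le_pow_right hL hb)

private theorem low_step {G : SimpleGraph V} {d c K n : ℕ} {S : Finset V} (hG : C4F G)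
    (hn : n = Fintype.card V) (hn0 : 0 < n)
    (h1 : n ^ (2 ^ d) * n ≤ c * ∑ φ ∈ wk G d, (Yf G S φ).card)
    (h2 : ∀ Y : Finset V, n ≤ 2 * c * Y.card → n ^ (2 ^ d) ≤ K * (wu G d Y).card) :
    n ^ (2 ^ (d + 1)) ≤ 2 * c * K * (wu G (d + 1) S).card := by
  obtain ⟨Q, hQ⟩ : ∃ Q, Q = (wk G d).filter fun φ => n ≤ 2 * c * (Yf G S φ).card := ⟨_, rfl⟩
  have hM : n ^ (2 ^ d) ≤ 2 * c * Q.card := by
    rw [hQ]
    refine avg (wk G d) (fun φ => (Yf G S φ).card) n (n ^ (2 ^ d)) c hn0 ?_ ?_ h1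
    · rw [hn]
      exact ubd hG d
    · intro φ _
      rw [hn]
      exact Finset.card_le_univ _
  have hNpos : 0 < n ^ (2 ^ d) := Nat.pow_pos hn0
  have hQn : Q.Nonempty := by
    rw [← Finset.card_pos]
    by_contra h
    rw [Nat.eq_zero_of_not_pos h, Nat.mul_zero] at hM
    omega
  obtain ⟨φ0, hφ0, hmin⟩ := Finset.exists_min_image Q (fun φ => (wu G d (Yf G S φ)).card) hQn
  have hgood : ∀ φ ∈ Q, Wk G d φ ∧ n ≤ 2 * c * (Yf G S φ).card := by
    intro φ hφ
    rw [hQ, Finset.mem_filter, mem_wk] at hφ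
    exact hφ
  have hs : Q.card * (wu G d (Yf G S φ0)).card ≤ (wu G (d + 1) S).card := by
    refine stp (fun φ hφ => ⟨(hgood φ hφ).1, ?_⟩) hmin
    have h3 := (hgood φ hφ).2
    have h4 : (Yf G S φ).Nonempty := by
      rw [← Finset.card_pos]
      by_contra h
      rw [Nat.eq_zero_of_not_pos h, Nat.mul_zero] at h3
      omega
    obtain ⟨y, hy⟩ := h4
    intro x
    unfold Yf at hy
    rw [Finset.mem_filter] at hy
    have h5 := hy.2 x
    unfold n3 at h5
    exact (Finset.mem_filter.1 h5).1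
  have h6 : n ^ (2 ^ d) ≤ K * (wu G d (Yf G S φ0)).card := h2 _ (hgood φ0 hφ0).2
  calc n ^ (2 ^ (d + 1)) = n ^ (2 ^ d) * n ^ (2 ^ d) := by rw [← pow_add]; ring_nf
    _ ≤ (2 * c * Q.card) * (K * (wu G d (Yf G S φ0)).card) := Nat.mul_le_mul hM h6
    _ = 2 * c * K * (Q.card * (wu G d (Yf G S φ0)).card) := by ring
    _ ≤ 2 * c * K * (wu G (d + 1) S).card := Nat.mul_le_mul_left _ hs

/-- ROW low. Induction on `d`. `d = 0`: `wu G 0 U` is `U` (`A2 = A`, `B2 = B`, `A1 = 0`). Step: let `A'`, `B'` (and `A1'`, `B1'`) be the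
constants of `d` for `256 * A ^ 2`, `2 * B + 2`; `K = 4 * A * A' * L ^ (B + B')`; and `A''`, `B''` (and `A1''`, `B1''`) those of `d` for
`4 * A * A'`, `B + B'`. `P = A * L ^ (B + 1)`; `num` with `u = U.card` gives `D`, `mdu` gives `S`; for `y ∈ S`, `n3c`: `n ≤ 256 * P ^ 2 * (n3 G S y).card`,
so `n ^ N ≤ A' * L ^ B' * (wu G d (n3 G S y)).card`; sum over `y`, `dcs`; `avg` with `M = n ^ N` (`ubd`), `c = 2 * A * L ^ B * A' * L ^ B'`
(`card V ≤ 2 * A * L ^ B * S.card`); for the good `φ` `n ≤ K * (Yf G S φ).card` (so it is nonempty and `φ x ∈ S`), the induction hypothesis for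
`Yf G S φ`; `stp`; `wu G (d + 1) S ⊆ wu G (d + 1) U`. `A2 = 4 * A * A' * A''`, `B2 = B + B' + B''`; `A1 = 8 * A + A1' + A1''`,
`B1 = B + 1 + B1' + B1''`. -/
theorem low (d : ℕ) : ∀ A B : ℕ, ∃ A1 B1 A2 B2 : ℕ, ∀ (V : Type) [Fintype V] (G : SimpleGraph V)
    (m L : ℕ), C4F G → Alp G m → m ^ 2 ≤ L * Fintype.card V → A1 * L ^ B1 ≤ m → ∀ U : Finset V,
      Fintype.card V ≤ A * L ^ B * U.card →
      Fintype.card V ^ (2 ^ d) ≤ A2 * L ^ B2 * (wu G d U).card := by
  induction d with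
  | zero =>
    intro A B
    refine ⟨0, 0, A, B, fun V _ G m L _ _ _ _ U hU => ?_⟩
    rw [pow_zero, pow_one]
    exact hU.trans (Nat.mul_le_mul_left _ (low_zero V G U))
  | succ d ih =>
    intro A B
    obtain ⟨a1, b1, a', b', h'⟩ := ih (256 * A ^ 2) (2 * B + 2)
    obtain ⟨a1'', b1'', a'', b'', h''⟩ := ih (4 * A * a') (B + b')
    refine ⟨8 * A + a1 + a1'', B + 1 + b1 + b1'', 4 * A * a' * a'', B + b' + b'',
      fun V _ G m L hG hm hL hA U hU => ?_⟩
    obtain ⟨n, hn⟩ : ∃ n, n = Fintype.card V := ⟨_, rfl⟩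
    rw [← hn] at hL hU ⊢
    rcases Nat.eq_zero_or_pos n with h0 | hn0
    · rw [h0, zero_pow (by positivity)]
      exact Nat.zero_le _
    have hm1 : 1 ≤ m := alp_pos hm
    have hL1 : 1 ≤ L := by
      rcases Nat.eq_zero_or_pos L with h | h
      · rw [h, Nat.zero_mul] at hL
        have : 0 < m ^ 2 := Nat.pow_pos hm1
        omega
      · exact h
    have hA1 : 1 ≤ A := by
      rcases Nat.eq_zero_or_pos A with h | h
      · rw [h, Nat.zero_mul, Nat.zero_mul] at hU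
        omega
      · exact h
    have hP1 : 1 ≤ A * L ^ (B + 1) := Nat.mul_pos hA1 (Nat.pow_pos hL1)
    have hPu : m ^ 2 ≤ A * L ^ (B + 1) * U.card := by
      calc m ^ 2 ≤ L * n := hL
        _ ≤ L * (A * L ^ B * U.card) := Nat.mul_le_mul_left _ hU
        _ = A * L ^ (B + 1) * U.card := by ring
    have h8 : 8 * (A * L ^ (B + 1)) ≤ m := by
      refine le_trans ?_ hA
      rw [← Nat.mul_assoc]
      exact low_pow hL1 (by omega) (by omega)
    have hm' : a1 * L ^ b1 ≤ m := (low_pow hL1 (by omega) (by omega)).trans hA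
    have hm'' : a1'' * L ^ b1'' ≤ m := (low_pow hL1 (by omega) (by omega)).trans hA
    obtain ⟨D, hD1, hD2⟩ := num (n := n) hP1 (hn ▸ nle hG hm) hPu h8
    obtain ⟨S, hSU, hUS, hdeg⟩ := mdu hm D U hD1
    have hy : ∀ y ∈ S, n ^ (2 ^ d) ≤ a' * L ^ b' * (wu G d (n3 G S y)).card := by
      intro y hy
      have e := h' V G m L hG hm (hn ▸ hL) hm' (n3 G S y) ?_
      · rw [hn]; exact e
      · rw [← hn]
        calc n ≤ 256 * (A * L ^ (B + 1)) ^ 2 * (D * (D - 1)) := hD2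
          _ ≤ 256 * (A * L ^ (B + 1)) ^ 2 * (n3 G S y).card :=
            Nat.mul_le_mul_left _ (n3c hG hdeg hy)
          _ = 256 * A ^ 2 * L ^ (2 * B + 2) * (n3 G S y).card := by ring
    have hsum : S.card * n ^ (2 ^ d) ≤ a' * L ^ b' * ∑ φ ∈ wk G d, (Yf G S φ).card := by
      rw [← dcs G d S, Finset.mul_sum, ← smul_eq_mul]
      exact Finset.card_nsmul_le_sum _ _ _ hy
    have hnS : n ≤ 2 * (A * L ^ B) * S.card := by
      calc n ≤ A * L ^ B * U.card := hU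
        _ ≤ A * L ^ B * (2 * S.card) := Nat.mul_le_mul_left _ hUS
        _ = 2 * (A * L ^ B) * S.card := by ring
    have key : n ^ (2 ^ (d + 1)) ≤ 2 * (2 * A * a' * L ^ (B + b')) * (a'' * L ^ b'') *
        (wu G (d + 1) S).card := by
      refine low_step hG hn hn0 ?_ ?_
      · calc n ^ (2 ^ d) * n ≤ n ^ (2 ^ d) * (2 * (A * L ^ B) * S.card) :=
              Nat.mul_le_mul_left _ hnS
          _ = 2 * (A * L ^ B) * (S.card * n ^ (2 ^ d)) := by ring
          _ ≤ 2 * (A * L ^ B) * (a' * L ^ b' * ∑ φ ∈ wk G d, (Yf G S φ).card) :=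
              Nat.mul_le_mul_left _ hsum
          _ = 2 * A * a' * L ^ (B + b') * ∑ φ ∈ wk G d, (Yf G S φ).card := by
              rw [pow_add]; ring
      · intro Y hY
        have e := h'' V G m L hG hm (hn ▸ hL) hm'' Y ?_
        · rw [hn]; exact e
        · rw [← hn]
          calc n ≤ 2 * (2 * A * a' * L ^ (B + b')) * Y.card := hY
            _ = 4 * A * a' * L ^ (B + b') * Y.card := by ring
    calc n ^ (2 ^ (d + 1)) ≤ 2 * (2 * A * a' * L ^ (B + b')) * (a'' * L ^ b'') *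
        (wu G (d + 1) S).card := key
      _ ≤ 2 * (2 * A * a' * L ^ (B + b')) * (a'' * L ^ b'') * (wu G (d + 1) U).card :=
        Nat.mul_le_mul_left _ (low_mono hSU)
      _ = 4 * A * a' * a'' * L ^ (B + b' + b'') * (wu G (d + 1) U).card := by
        rw [pow_add L (B + b') b'']; ring
-- END low

end

-- BEGIN cop
/-- ROW cop. `low` (`A = 1`, `B = 0`, `U = univ`), `nij`: if no weak copy is injective then `wu G d univ ⊆ ni G d` and
`n ^ N * n ≤ A2 * L ^ B2 * A * L ^ B * m * n ^ N`, so `n ≤ A2 * A * L ^ (B2 + B) * m` and `m ^ 2 ≤ L * n` contradict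
`(A2 * A + 1) * L ^ (B2 + B + 1) ≤ m`. `hom`. -/
theorem cop (d : ℕ) : ∃ A1 B1 : ℕ, ∀ (V : Type) [Fintype V] (G : SimpleGraph V) (m L : ℕ), C4F G →
    Alp G m → m ^ 2 ≤ L * Fintype.card V → A1 * L ^ B1 ≤ m → (Dg d).IsContained G := by
  obtain ⟨A1, B1, A2, B2, hlow⟩ := low d 1 0
  obtain ⟨A, B, hnij⟩ := nij d
  refine ⟨A1 + (A2 * A + 1), B1 + (B2 + B + 1), fun V _ G m L hG ha hmL hm => ?_⟩
  have hm1 : 1 ≤ m := alp_pos ha
  have hm2 : 1 ≤ m ^ 2 := Nat.one_le_pow _ _ hm1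
  have hL : 1 ≤ L := by
    rcases Nat.eq_zero_or_pos L with h | h
    · rw [h, zero_mul] at hmL; omega
    · exact h
  have hn1 : 1 ≤ Fintype.card V := by
    rcases Nat.eq_zero_or_pos (Fintype.card V) with h | h
    · rw [h, mul_zero] at hmL; omega
    · exact h
  have e1 : A1 * L ^ B1 ≤ m := by
    refine le_trans ?_ hm
    exact Nat.mul_le_mul (by omega) (Nat.pow_le_pow_right hL (by omega))
  have e2 : (A2 * A + 1) * L ^ (B2 + B + 1) ≤ m := by
    refine le_trans ?_ hm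
    exact Nat.mul_le_mul (by omega) (Nat.pow_le_pow_right hL (by omega))
  by_contra hcon
  have hsub : wu G d univ ⊆ ni G d := by
    intro φ hφ
    rw [mem_wu] at hφ
    unfold ni
    rw [Finset.mem_filter, mem_wk]
    refine ⟨hφ.1, fun hinj => hcon ?_⟩
    exact ⟨⟨⟨φ, fun {a b} hab => hom d hφ.1 a b hab⟩, hinj⟩⟩
  have h1 := hlow V G m L hG ha hmL e1 univ (by rw [pow_zero, mul_one, one_mul, Finset.card_univ])
  have h2 := hnij V G m L hG ha hmL
  have h3 := Finset.card_le_card hsub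
  have hpos : 0 < Fintype.card V ^ (2 ^ d) := Nat.pow_pos hn1
  have h4 : Fintype.card V ^ (2 ^ d) * Fintype.card V ≤
      Fintype.card V ^ (2 ^ d) * (A2 * A * L ^ (B2 + B) * m) := by
    calc Fintype.card V ^ (2 ^ d) * Fintype.card V
        ≤ (A2 * L ^ B2 * (wu G d univ).card) * Fintype.card V := Nat.mul_le_mul_right _ h1
      _ ≤ (A2 * L ^ B2 * (ni G d).card) * Fintype.card V :=
        Nat.mul_le_mul_right _ (Nat.mul_le_mul_left _ h3)
      _ = A2 * L ^ B2 * ((ni G d).card * Fintype.card V) := by ring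
      _ ≤ A2 * L ^ B2 * (A * L ^ B * m * Fintype.card V ^ (2 ^ d)) := Nat.mul_le_mul_left _ h2
      _ = Fintype.card V ^ (2 ^ d) * (A2 * A * L ^ (B2 + B) * m) := by rw [pow_add]; ring
  have h5 := Nat.le_of_mul_le_mul_left h4 hpos
  have h6 : m * m ≤ m * (A2 * A * L ^ (B2 + B + 1)) := by
    calc m * m = m ^ 2 := by ring
      _ ≤ L * Fintype.card V := hmL
      _ ≤ L * (A2 * A * L ^ (B2 + B) * m) := Nat.mul_le_mul_left L h5
      _ = m * (A2 * A * L ^ (B2 + B + 1)) := by rw [pow_succ]; ring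
  have h7 := Nat.le_of_mul_le_mul_left h6 (by omega)
  have h8 : (A2 * A + 1) * L ^ (B2 + B + 1) = A2 * A * L ^ (B2 + B + 1) + L ^ (B2 + B + 1) := by ring
  have h9 : 0 < L ^ (B2 + B + 1) := Nat.pow_pos hL
  omega
-- END cop

/-- The main theorem. -/
theorem frd (d : ℕ) : ∃ δ : ℝ, 0 < δ ∧ ∃ C : ℝ, ∀ (V : Type) [Fintype V] (G : SimpleGraph V) (m : ℕ),
    1 ≤ m → C * (m : ℝ) ^ (2 - δ) ≤ Fintype.card V → C4F G → Alp G m → (Dg d).IsContained G := by
  obtain ⟨A1, B1, h⟩ := cop d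
  obtain ⟨δ, hδ, C, hC⟩ := Pool.Agent.C4j.num A1 B1
  refine ⟨δ, hδ, C, fun V _ G m hm hn hG ha => ?_⟩
  obtain ⟨L, h1, h2⟩ := hC (Fintype.card V) m hm (nle hG ha) hn
  exact h V G m L hG ha h1 h2

end Pool.Agent.C4k
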